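import Pool.Agent.Lib.MP_8ec070_an.LH.Defs

set_option autoImplicit false

open MeasureTheory Set Filter Topology Metric
open scoped ENNReal NNReal Real FourierTransform SchwartzMap

namespace Pool.Agent.Lib.MP_8ec070_an.LH

theorem avg_eq {U : E2 → ℝ≥0∞} (hU : Measurable U) (r : ℝ) :
    ∫⁻ z, ∫⁻ x in ball z r, U x = volume (ball (0 : E2) r) * ∫⁻ x, U x := by
  have hs : MeasurableSet {p : E2 × E2 | dist p.2 p.1 < r} :=
    (isOpen_lt (by fun_prop) continuous_const).measurableSet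
  have e : ∀ z : E2, ∫⁻ x in ball z r, U x =
      ∫⁻ x, {p : E2 × E2 | dist p.2 p.1 < r}.indicator (fun p => U p.2) (z, x) := fun z => by
    rw [← lintegral_indicator measurableSet_ball]
    rfl
  simp only [e]
  rw [lintegral_lintegral_swap
    (f := fun z x : E2 => {p : E2 × E2 | dist p.2 p.1 < r}.indicator (fun p => U p.2) (z, x))
    (((hU.comp measurable_snd).indicator hs).aemeasurable), ← lintegral_const_mul _ hU]
  refine lintegral_congr fun x => ?_
  have e2 : ∀ z : E2, {p : E2 × E2 | dist p.2 p.1 < r}.indicator (fun p => U p.2) (z, x) =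
      (ball x r).indicator (fun _ => U x) z := fun z => by
    simp only [indicator, mem_ofPred_eq, mem_ball, dist_comm]
  simp only [e2]
  rw [lintegral_indicator measurableSet_ball, setLIntegral_const,
    Measure.addHaar_ball_center, mul_comm]

/-- Averaging over balls. -/
theorem avg {U V : E2 → ℝ≥0∞} (hU : AEMeasurable U) (hV : Measurable V) {R : ℝ} (hR : 0 < R)
    (h : ∀ z, ∫⁻ x in ball z R, U x ≤ ∫⁻ x in ball z (3 * R), V x) : ∫⁻ x, U x ≤ 9 * ∫⁻ x, V x := by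
  have h1 : ∫⁻ z, ∫⁻ x in ball z R, hU.mk U x ≤ ∫⁻ z, ∫⁻ x in ball z (3 * R), V x :=
    lintegral_mono fun z => by
      rw [← lintegral_congr_ae (ae_restrict_of_ae hU.ae_eq_mk)]
      exact h z
  rw [avg_eq hU.measurable_mk, avg_eq hV, ← lintegral_congr_ae hU.ae_eq_mk,
    Measure.addHaar_ball_mul_of_pos _ _ (by norm_num : (0 : ℝ) < 3)] at h1
  have e : ENNReal.ofReal ((3 : ℝ) ^ Module.finrank ℝ E2) = 9 := by
    rw [finrank_euclideanSpace_fin]
    norm_num
  rw [e, mul_comm 9, mul_assoc] at h1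
  exact (ENNReal.mul_le_mul_iff_right (measure_ball_pos _ _ hR).ne' measure_ball_lt_top.ne).1 h1

/-- Summation of the pieces. -/
theorem sum_pieces {a : ℕ → E2 → ℂ} (ha : ∀ j, Continuous (a j)) {S : E2 → ℂ}
    (hS : ∀ x, Tendsto (fun J => ∑ j ∈ Finset.range J, a j x) atTop (𝓝 (S x))) {φ : E2 → ℝ}
    (h0 : ∀ x, 0 ≤ φ x) (hφ : AEMeasurable φ) {q : ℝ} (hq0 : 0 < q) (hq1 : q < 1) {I : ℝ≥0∞}
    (h : ∀ j, ∫⁻ x, ENNReal.ofReal (‖a j x‖ ^ 2 * φ x) ≤ ENNReal.ofReal (q ^ (2 * j)) * I) :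
    ∫⁻ x, ENNReal.ofReal (‖S x‖ ^ 2 * φ x) ≤ ENNReal.ofReal (((1 - q) ^ 2)⁻¹) * I := by
  have h1q : 0 < 1 - q := by linarith
  have pt : ∀ x, ENNReal.ofReal (‖S x‖ ^ 2 * φ x) ≤ ENNReal.ofReal (1 - q)⁻¹ *
      ∑' j, ENNReal.ofReal (q ^ j)⁻¹ * ENNReal.ofReal (‖a j x‖ ^ 2 * φ x) := fun x => by
    have t1 : Tendsto (fun J => ENNReal.ofReal (‖∑ j ∈ Finset.range J, a j x‖ ^ 2 * φ x)) atTop
        (𝓝 (ENNReal.ofReal (‖S x‖ ^ 2 * φ x))) :=
      ENNReal.tendsto_ofReal (((hS x).norm.pow 2).mul_const _)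
    refine le_of_tendsto' t1 fun J => ?_
    have c1 : (∑ j ∈ Finset.range J, ‖a j x‖) ^ 2 ≤ (∑ j ∈ Finset.range J, q ^ j) *
        ∑ j ∈ Finset.range J, (q ^ j)⁻¹ * ‖a j x‖ ^ 2 :=
      Finset.sum_sq_le_sum_mul_sum_of_sq_le_mul _ (fun j _ => by positivity)
        (fun j _ => by positivity) fun j _ => le_of_eq (by field_simp)
    have c2 : ∑ j ∈ Finset.range J, q ^ j ≤ (1 - q)⁻¹ := by
      rw [← tsum_geometric_of_lt_one hq0.le hq1]
      exact (summable_geometric_of_lt_one hq0.le hq1).sum_le_tsum _ fun j _ => by positivity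
    have c3 : ‖∑ j ∈ Finset.range J, a j x‖ ^ 2 ≤ (1 - q)⁻¹ *
        ∑ j ∈ Finset.range J, (q ^ j)⁻¹ * ‖a j x‖ ^ 2 :=
      (pow_le_pow_left₀ (norm_nonneg _) (norm_sum_le _ _) 2).trans (c1.trans
        (mul_le_mul_of_nonneg_right c2 (Finset.sum_nonneg fun j _ => by positivity)))
    have hx := h0 x
    refine (ENNReal.ofReal_le_ofReal (mul_le_mul_of_nonneg_right c3 hx)).trans ?_
    rw [mul_assoc, ENNReal.ofReal_mul (by positivity), Finset.sum_mul,
      ENNReal.ofReal_sum_of_nonneg fun j _ => by positivity]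
    refine mul_le_mul_right ?_ _
    refine le_trans (le_of_eq (Finset.sum_congr rfl fun j _ => ?_)) (ENNReal.sum_le_tsum _)
    rw [mul_assoc, ENNReal.ofReal_mul (by positivity)]
  have me : ∀ j, AEMeasurable fun x => ENNReal.ofReal (‖a j x‖ ^ 2 * φ x) := fun j =>
    ((((ha j).norm.pow 2).measurable.aemeasurable).mul hφ).ennreal_ofReal
  refine (lintegral_mono pt).trans ?_
  rw [lintegral_const_mul' _ _ ENNReal.ofReal_ne_top,
    lintegral_tsum fun j => (me j).const_mul _]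
  have s1 : ∑' j, ∫⁻ x, ENNReal.ofReal (q ^ j)⁻¹ * ENNReal.ofReal (‖a j x‖ ^ 2 * φ x) ≤
      ∑' j, ENNReal.ofReal (q ^ j) * I := ENNReal.tsum_le_tsum fun j => by
    rw [lintegral_const_mul' _ _ ENNReal.ofReal_ne_top]
    refine (mul_le_mul_right (h j) _).trans (le_of_eq ?_)
    rw [← mul_assoc, ← ENNReal.ofReal_mul (by positivity)]
    congr 2
    rw [two_mul, pow_add]
    field_simp
  refine (mul_le_mul_right s1 _).trans (le_of_eq ?_)
  rw [ENNReal.tsum_mul_right, ← ENNReal.ofReal_tsum_of_nonneg (fun j => by positivity)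
    (summable_geometric_of_lt_one hq0.le hq1), tsum_geometric_of_lt_one hq0.le hq1, ← mul_assoc,
    ← ENNReal.ofReal_mul (by positivity)]
  congr 2
  rw [sq, mul_inv]

end Pool.Agent.Lib.MP_8ec070_an.LH
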