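import Pool.Agent.Lib.MP_8ec070_an.LH.Defs

set_option autoImplicit false

open MeasureTheory Set Filter Topology Metric
open scoped ENNReal NNReal Real FourierTransform SchwartzMap

namespace Pool.Agent.Lib.MP_8ec070_an.LH

theorem ball_mass (φ : E2 → ℝ) (x y : E2) (ρ : ℝ) :
    mass φ y ρ = ∫⁻ v in ball (x - y) ρ, ENNReal.ofReal (φ (x - v)) := by
  have h := (Measure.measurePreserving_sub_left (volume : Measure E2) x).setLIntegral_comp_preimage_emb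
    (Homeomorph.subLeft x).measurableEmbedding (fun w => ENNReal.ofReal (φ w)) (ball y ρ)
  have e : (fun v : E2 => x - v) ⁻¹' ball y ρ = ball (x - y) ρ := by
    ext v
    rw [mem_preimage, mem_ball_iff_norm, mem_ball_iff_norm', sub_right_comm]
  rw [mass, ← h, e]

theorem ball_le_MD (δ : ℝ) (φ : E2 → ℝ) (x u : E2) (hu : ‖u‖ = 1) {r : ℝ} (hr : 0 < r) :
    ENNReal.ofReal (1 / r ^ 2) * ∫⁻ y in Metric.closedBall (0 : E2) r,
      ENNReal.ofReal (δ * ‖(‖y‖⁻¹) • y - u‖ ^ (δ - 1) * φ (x - y)) ≤ MD δ φ x :=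
  le_iSup_of_le u (le_iSup_of_le hu (le_iSup_of_le r (le_iSup_of_le hr le_rfl)))

theorem ball_sub (p : E2) (ρ : ℝ) : ball p ρ ⊆ closedBall (0 : E2) (‖p‖ + ρ) := fun v hv => by
  rw [mem_ball_iff_norm] at hv
  rw [mem_closedBall_zero_iff]
  have := norm_le_norm_add_norm_sub' v p
  linarith

theorem ball_unit (p : E2) : ∃ u : E2, ‖u‖ = 1 ∧ p = ‖p‖ • u := by
  by_cases h : p = 0
  · obtain ⟨u, hu⟩ := exists_norm_eq E2 zero_le_one
    exact ⟨u, hu, by rw [h, norm_zero, zero_smul]⟩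
  · have h1 : ‖p‖ ≠ 0 := norm_ne_zero_iff.2 h
    refine ⟨‖p‖⁻¹ • p, ?_, by rw [smul_smul, mul_inv_cancel₀ h1, one_smul]⟩
    rw [norm_smul, norm_inv, norm_norm, inv_mul_cancel₀ h1]

theorem ball_dir_le (v : E2) : ‖(‖v‖⁻¹) • v‖ ≤ 1 := by
  rw [norm_smul, norm_inv, norm_norm]
  exact inv_mul_le_one_of_le₀ le_rfl (norm_nonneg _)

theorem ball_angle {p u v : E2} {ρ : ℝ} (hρ : 0 < ρ) (hu : ‖u‖ = 1) (hp : p = ‖p‖ • u)
    (hv : v ∈ ball p ρ) : ‖(‖v‖⁻¹) • v - u‖ ≤ 4 * (ρ / (‖p‖ + ρ)) := by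
  rw [mem_ball_iff_norm] at hv
  have hr : 0 < ‖p‖ + ρ := by positivity
  rw [← mul_div_assoc, le_div_iff₀ hr]
  have ht := norm_nonneg ((‖v‖⁻¹) • v - u)
  rcases le_or_gt ‖p‖ ρ with h | h
  · have h2 : ‖(‖v‖⁻¹) • v - u‖ ≤ 2 := by
      have := norm_sub_le ((‖v‖⁻¹) • v) u
      have := ball_dir_le v
      linarith
    nlinarith
  · have h3 : |‖v‖ - ‖p‖| ≤ ‖v - p‖ := abs_norm_sub_norm_le v p
    have h4 : ‖v‖ ≠ 0 := by
      have := (abs_le.1 h3).1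
      have : 0 < ‖v‖ := by linarith
      exact this.ne'
    have h5 : ‖(‖v‖⁻¹) • v‖ = 1 := by rw [norm_smul, norm_inv, norm_norm, inv_mul_cancel₀ h4]
    have h6 : ‖p‖ • ((‖v‖⁻¹) • v - u) = (‖p‖ - ‖v‖) • ((‖v‖⁻¹) • v) + (v - p) := by
      rw [smul_sub, ← hp, sub_smul, smul_smul ‖v‖, mul_inv_cancel₀ h4, one_smul]
      abel
    have h7 : ‖p‖ * ‖(‖v‖⁻¹) • v - u‖ ≤ 2 * ρ := by
      have h8 := norm_add_le ((‖p‖ - ‖v‖) • ((‖v‖⁻¹) • v)) (v - p)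
      rw [← h6, norm_smul, norm_norm, norm_smul (‖p‖ - ‖v‖), h5, mul_one, Real.norm_eq_abs,
        abs_sub_comm] at h8
      linarith
    nlinarith

theorem ball_ae {u : E2} (hu : ‖u‖ = 1) : ∀ᵐ v : E2, 0 < ‖(‖v‖⁻¹) • v - u‖ := by
  have hu0 : u ≠ 0 := fun h => by rw [h, norm_zero] at hu; exact zero_ne_one hu
  have h1 : Submodule.span ℝ {u} ≠ ⊤ := fun h => by
    have h2 := finrank_span_singleton (K := ℝ) hu0
    rw [h, finrank_top, finrank_euclideanSpace_fin] at h2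
    exact absurd h2 (by norm_num)
  have h3 := Measure.addHaar_submodule (volume : Measure E2) _ h1
  refine measure_mono_null (fun v hv => ?_) h3
  have h4 : (‖v‖⁻¹) • v = u := by
    by_contra h
    exact hv (norm_pos_iff.2 (sub_ne_zero.2 h))
  have h5 : ‖v‖ ≠ 0 := fun h => hu0 (by rw [← h4, h, inv_zero, zero_smul])
  exact Submodule.mem_span_singleton.2 ⟨‖v‖, by rw [← h4, smul_smul, mul_inv_cancel₀ h5, one_smul]⟩

theorem ball_const {δ α r ρ : ℝ} (h0 : 0 < δ) (h1 : δ ≤ α) (hρ : 0 < ρ) (hr : ρ ≤ r) :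
    (r ^ (1 + α) * ρ ^ (1 - α))⁻¹ ≤ 4 / δ * (1 / r ^ 2 * (δ * (4 * (ρ / r)) ^ (δ - 1))) := by
  have hr0 : 0 < r := hρ.trans_le hr
  obtain ⟨s, hs⟩ : ∃ s, s = ρ / r := ⟨_, rfl⟩
  have hs0 : 0 < s := hs ▸ div_pos hρ hr0
  have hs1 : s ≤ 1 := hs ▸ (div_le_one hr0).2 hr
  have e1 : ρ = r * s := by rw [hs]; field_simp
  have e2 : (r ^ (1 + α) * ρ ^ (1 - α))⁻¹ = 1 / r ^ 2 * s ^ (α - 1) := by
    rw [e1, Real.mul_rpow hr0.le hs0.le, ← mul_assoc, ← Real.rpow_add hr0,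
      show 1 + α + (1 - α) = ((2 : ℕ) : ℝ) by push_cast; ring, Real.rpow_natCast, mul_inv,
      ← Real.rpow_neg hs0.le, neg_sub, one_div]
  have e3 : 4 / δ * (1 / r ^ 2 * (δ * (4 * s) ^ (δ - 1))) =
      1 / r ^ 2 * ((4 : ℝ) ^ δ * s ^ (δ - 1)) := by
    rw [Real.mul_rpow (by norm_num) hs0.le, Real.rpow_sub_one (by norm_num : (4 : ℝ) ≠ 0)]
    field_simp
  rw [e2, ← hs, e3]
  refine mul_le_mul_of_nonneg_left ?_ (by positivity)
  have h3 : s ^ (α - 1) ≤ s ^ (δ - 1) :=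
    Real.rpow_le_rpow_of_exponent_ge hs0 hs1 (by linarith)
  have h4 : (1 : ℝ) ≤ 4 ^ δ := Real.one_le_rpow (by norm_num) h0.le
  exact h3.trans (le_mul_of_one_le_left (Real.rpow_nonneg hs0.le _) h4)

/-- Small `δ`: a ball is seen under a small angle. -/
theorem GG_le_small {δ α : ℝ} (h0 : 0 < δ) (h1 : δ ≤ α) (h2 : α ≤ 1) : ∃ C : ℝ≥0,
    ∀ φ : E2 → ℝ, (∀ x, 0 ≤ φ x) → ∀ x, GG α φ x ≤ C * MD δ φ x := by
  refine ⟨(4 / δ).toNNReal, fun φ hφ x => iSup_le fun y => iSup_le fun ρ => iSup_le fun hρ => ?_⟩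
  obtain ⟨u, hu, hp⟩ := ball_unit (x - y)
  have hr : 0 < ‖x - y‖ + ρ := by positivity
  have hc : 0 ≤ δ * (4 * (ρ / (‖x - y‖ + ρ))) ^ (δ - 1) := by positivity
  have key : ENNReal.ofReal (δ * (4 * (ρ / (‖x - y‖ + ρ))) ^ (δ - 1)) * mass φ y ρ ≤
      ∫⁻ v in Metric.closedBall (0 : E2) (‖x - y‖ + ρ),
        ENNReal.ofReal (δ * ‖(‖v‖⁻¹) • v - u‖ ^ (δ - 1) * φ (x - v)) := by
    rw [ball_mass φ x y ρ, ← lintegral_const_mul' _ _ ENNReal.ofReal_ne_top]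
    refine le_trans ?_ (lintegral_mono_set (ball_sub (x - y) ρ))
    refine lintegral_mono_ae ((ae_restrict_iff' measurableSet_ball).2 ?_)
    filter_upwards [ball_ae hu] with v hv hvb
    rw [← ENNReal.ofReal_mul hc]
    refine ENNReal.ofReal_le_ofReal (mul_le_mul_of_nonneg_right
      (mul_le_mul_of_nonneg_left ?_ h0.le) (hφ _))
    exact Real.rpow_le_rpow_of_nonpos hv (ball_angle hρ hu hp hvb) (by linarith)
  have hle := ENNReal.ofReal_le_ofReal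
    (ball_const h0 h1 hρ (le_add_of_nonneg_left (norm_nonneg (x - y))))
  rw [ENNReal.ofReal_mul (by positivity), ENNReal.ofReal_mul (by positivity)] at hle
  refine (mul_le_mul_left hle _).trans ?_
  rw [mul_assoc, mul_assoc]
  exact mul_le_mul_right ((mul_le_mul_right key _).trans (ball_le_MD δ φ x u hu hr)) _

theorem ball_half {δ : ℝ} (h1 : 1 ≤ δ) {φ : E2 → ℝ} (hφ : ∀ x, 0 ≤ φ x) (x u : E2) (r : ℝ) :
    ∫⁻ v in closedBall (0 : E2) r ∩ {v | 1 ≤ ‖(‖v‖⁻¹) • v - u‖}, ENNReal.ofReal (φ (x - v)) ≤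
      ∫⁻ v in closedBall (0 : E2) r,
        ENNReal.ofReal (δ * ‖(‖v‖⁻¹) • v - u‖ ^ (δ - 1) * φ (x - v)) := by
  have hm : MeasurableSet (closedBall (0 : E2) r ∩ {v | 1 ≤ ‖(‖v‖⁻¹) • v - u‖}) :=
    measurableSet_closedBall.inter (measurableSet_le measurable_const
      ((measurable_norm.inv.smul measurable_id).sub_const u).norm)
  refine le_trans (setLIntegral_mono' hm fun v hv => ?_) (lintegral_mono_set inter_subset_left)
  refine ENNReal.ofReal_le_ofReal (le_mul_of_one_le_left (hφ _) ?_)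
  exact one_le_mul_of_one_le_of_one_le h1 (Real.one_le_rpow hv.2 (by linarith))

/-- Large `δ`: two opposite directions. -/
theorem GG_le_large {δ : ℝ} (h1 : 1 ≤ δ) : ∃ C : ℝ≥0,
    ∀ φ : E2 → ℝ, (∀ x, 0 ≤ φ x) → ∀ x, GG 1 φ x ≤ C * MD δ φ x := by
  refine ⟨2, fun φ hφ x => iSup_le fun y => iSup_le fun ρ => iSup_le fun hρ => ?_⟩
  obtain ⟨u, hu⟩ := exists_norm_eq E2 zero_le_one
  have hr : 0 < ‖x - y‖ + ρ := by positivity
  obtain ⟨r, hr'⟩ : ∃ r, r = ‖x - y‖ + ρ := ⟨_, rfl⟩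
  have hsub : ball (x - y) ρ ⊆ closedBall (0 : E2) r ∩ {v | 1 ≤ ‖(‖v‖⁻¹) • v - u‖} ∪
      closedBall (0 : E2) r ∩ {v | 1 ≤ ‖(‖v‖⁻¹) • v - -u‖} := fun v hv => by
    have hb : v ∈ closedBall (0 : E2) r := hr' ▸ ball_sub _ _ hv
    by_cases h : 1 ≤ ‖(‖v‖⁻¹) • v - u‖
    · exact Or.inl ⟨hb, h⟩
    · refine Or.inr ⟨hb, ?_⟩
      have h3 := norm_sub_le ((‖v‖⁻¹) • v - -u) ((‖v‖⁻¹) • v - u)
      have h4 : ((‖v‖⁻¹) • v - -u) - ((‖v‖⁻¹) • v - u) = (2 : ℝ) • u := by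
        rw [two_smul]; abel
      rw [h4, norm_smul, hu, Real.norm_ofNat] at h3
      change 1 ≤ ‖(‖v‖⁻¹) • v - -u‖
      linarith [not_le.1 h]
  have e : ((‖x - y‖ + ρ) ^ (1 + 1 : ℝ) * ρ ^ (1 - 1 : ℝ))⁻¹ = 1 / r ^ 2 := by
    rw [← hr', sub_self, Real.rpow_zero, mul_one, one_add_one_eq_two, Real.rpow_two, one_div]
  rw [← hr'] at hr
  rw [e, ball_mass φ x y ρ]
  refine (mul_le_mul_right ((lintegral_mono_set hsub).trans ((lintegral_union_le _ _ _).trans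
    (add_le_add (ball_half h1 hφ x u r) (ball_half h1 hφ x (-u) r)))) _).trans ?_
  rw [mul_add, ENNReal.coe_ofNat, two_mul]
  exact add_le_add (ball_le_MD δ φ x u hu hr) (ball_le_MD δ φ x (-u) (by rw [norm_neg, hu]) hr)

end Pool.Agent.Lib.MP_8ec070_an.LH
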