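import Pool.Agent.Lib.MP_8ec070_an.LH.Defs

set_option autoImplicit false

open MeasureTheory Set Filter Topology Metric
open scoped ENNReal NNReal Real FourierTransform SchwartzMap

namespace Pool.Agent.Lib.MP_8ec070_an.LH

theorem basic_FT (f : 𝓢(E2, ℂ)) : FT f = ((𝓕 f : 𝓢(E2, ℂ)) : E2 → ℂ) := by
  rw [FT_eq, SchwartzMap.fourier_coe]

theorem basic_norm (μ : E2 → ℂ) (f : E2 → ℂ) (x ξ : E2) :
    ‖μ ξ * (FT f ξ * ex (@inner ℝ _ _ x ξ))‖ = ‖μ ξ‖ * ‖FT f ξ‖ := by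
  rw [norm_mul, norm_mul, norm_ex, mul_one]

theorem basic_inv (F : E2 → ℂ) (z : E2) : ∫ η, F η * ex (@inner ℝ _ _ z η) = 𝓕⁻ F z := by
  rw [Real.fourierInv_eq']
  refine integral_congr_ae (Eventually.of_forall fun η => ?_)
  simp only [ex, smul_eq_mul]
  rw [mul_comm, real_inner_comm]

theorem integrable_FT (f : 𝓢(E2, ℂ)) : Integrable (FT f) := by
  rw [basic_FT]; exact (𝓕 f : 𝓢(E2, ℂ)).integrable

theorem continuous_FT (f : 𝓢(E2, ℂ)) : Continuous (FT f) := by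
  rw [basic_FT]; exact (𝓕 f : 𝓢(E2, ℂ)).continuous

theorem memLp_FT (f : 𝓢(E2, ℂ)) : MemLp (FT f) 2 volume := by
  rw [basic_FT]; exact (𝓕 f : 𝓢(E2, ℂ)).memLp 2 volume

/-- Plancherel. -/
theorem plancherel (f : 𝓢(E2, ℂ)) : ∫ ξ, ‖FT f ξ‖ ^ 2 = ∫ x, ‖f x‖ ^ 2 := by
  rw [basic_FT]; exact SchwartzMap.integral_norm_sq_fourier f

theorem integrable_TT {μ : E2 → ℂ} (hμ : Continuous μ) {B : ℝ} (hB : ∀ ξ, ‖μ ξ‖ ≤ B)
    (f : 𝓢(E2, ℂ)) (x : E2) : Integrable fun ξ => μ ξ * (FT f ξ * ex (@inner ℝ _ _ x ξ)) := by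
  have hc := continuous_FT f
  refine ((integrable_FT f).norm.const_mul B).mono' (Continuous.aestronglyMeasurable (by fun_prop))
    (Eventually.of_forall fun ξ => ?_)
  rw [basic_norm]
  exact mul_le_mul_of_nonneg_right (hB ξ) (norm_nonneg _)

theorem continuous_TT {μ : E2 → ℂ} (hμ : Continuous μ) {B : ℝ} (hB : ∀ ξ, ‖μ ξ‖ ≤ B)
    (f : 𝓢(E2, ℂ)) : Continuous (TT μ f) := by
  have hc := continuous_FT f
  refine continuous_of_dominated (bound := fun ξ => B * ‖FT f ξ‖)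
    (fun x => (integrable_TT hμ hB f x).aestronglyMeasurable)
    (fun x => Eventually.of_forall fun ξ => ?_) ((integrable_FT f).norm.const_mul B)
    (Eventually.of_forall fun ξ => by fun_prop)
  rw [basic_norm]
  exact mul_le_mul_of_nonneg_right (hB ξ) (norm_nonneg _)

theorem norm_TT_le {μ : E2 → ℂ} {B : ℝ} (hB : ∀ ξ, ‖μ ξ‖ ≤ B)
    (f : 𝓢(E2, ℂ)) (x : E2) : ‖TT μ f x‖ ≤ B * ∫ ξ, ‖FT f ξ‖ := by
  rw [← integral_const_mul]
  refine norm_integral_le_of_norm_le ((integrable_FT f).norm.const_mul B)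
    (Eventually.of_forall fun ξ => ?_)
  rw [basic_norm]
  exact mul_le_mul_of_nonneg_right (hB ξ) (norm_nonneg _)

theorem TT_sub_fun {μ : E2 → ℂ} (hμ : Continuous μ) {B : ℝ} (hB : ∀ ξ, ‖μ ξ‖ ≤ B)
    (f g : 𝓢(E2, ℂ)) (x : E2) : TT μ (f - g : 𝓢(E2, ℂ)) x = TT μ f x - TT μ g x := by
  unfold TT
  rw [← integral_sub (integrable_TT hμ hB f x) (integrable_TT hμ hB g x)]
  refine integral_congr_ae (Eventually.of_forall fun ξ => ?_)
  have : FT (f - g : 𝓢(E2, ℂ)) ξ = FT f ξ - FT g ξ := by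
    rw [basic_FT, basic_FT, basic_FT, ← SchwartzMap.fourierTransformCLM_apply ℂ,
      ← SchwartzMap.fourierTransformCLM_apply ℂ, ← SchwartzMap.fourierTransformCLM_apply ℂ,
      map_sub]
    rfl
  simp only [this]
  ring

theorem TT_sub_mul {μ μ' : E2 → ℂ} (hμ : Continuous μ) (hμ' : Continuous μ') {B B' : ℝ}
    (hB : ∀ ξ, ‖μ ξ‖ ≤ B) (hB' : ∀ ξ, ‖μ' ξ‖ ≤ B') (f : 𝓢(E2, ℂ)) (x : E2) :
    TT (fun ξ => μ ξ - μ' ξ) f x = TT μ f x - TT μ' f x := by
  unfold TT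
  rw [← integral_sub (integrable_TT hμ hB f x) (integrable_TT hμ' hB' f x)]
  refine integral_congr_ae (Eventually.of_forall fun ξ => ?_)
  ring

/-- A smooth cut-off of a Schwartz function. -/
theorem exists_cut (f : 𝓢(E2, ℂ)) (z : E2) {R : ℝ} (hR : 0 < R) : ∃ g : 𝓢(E2, ℂ),
    (∀ y ∈ ball z (2 * R), g y = f y) ∧ (∀ y, ‖g y‖ ≤ ‖f y‖) ∧ ∀ y, y ∉ ball z (3 * R) → g y = 0 := by
  let b : ContDiffBump z := ⟨2 * R, 3 * R, by positivity, by linarith⟩
  have hβ : ContDiff ℝ (⊤ : ℕ∞) fun y => (b y : ℂ) := Complex.ofRealCLM.contDiff.comp b.contDiff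
  have hc : HasCompactSupport fun y => (b y : ℂ) :=
    b.hasCompactSupport.comp_left (g := fun t : ℝ => (t : ℂ)) Complex.ofReal_zero
  have hc' : HasCompactSupport fun y => (b y : ℂ) * f y := hc.mul_right
  refine ⟨hc'.toSchwartzMap (hβ.mul (f.smooth ⊤)), fun y hy => ?_, fun y => ?_, fun y hy => ?_⟩
  · change (b y : ℂ) * f y = f y
    rw [b.one_of_mem_closedBall (ball_subset_closedBall hy), Complex.ofReal_one, one_mul]
  · change ‖(b y : ℂ) * f y‖ ≤ ‖f y‖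
    rw [norm_mul, Complex.norm_real, Real.norm_of_nonneg b.nonneg]
    exact mul_le_of_le_one_left (norm_nonneg _) b.le_one
  · change (b y : ℂ) * f y = 0
    rw [b.zero_of_le_dist (by simpa [b] using hy), Complex.ofReal_zero, zero_mul]

theorem exists_ker : ∃ Ψ, Ker Ψ := by
  let b : ContDiffBump (0 : E2) := ⟨1 / 2, 1, by norm_num, by norm_num⟩
  have hβ : ContDiff ℝ (⊤ : ℕ∞) fun y => (b y : ℂ) := Complex.ofRealCLM.contDiff.comp b.contDiff
  have hc : HasCompactSupport fun y => (b y : ℂ) :=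
    b.hasCompactSupport.comp_left (g := fun t : ℝ => (t : ℂ)) Complex.ofReal_zero
  let B : 𝓢(E2, ℂ) := hc.toSchwartzMap hβ
  let Q : 𝓢(E2, ℂ) := 𝓕 B
  have hQ : (Q : E2 → ℂ) = 𝓕 (B : E2 → ℂ) := SchwartzMap.fourier_coe B
  have hinv : ∀ z : E2, ∫ η, Q η * ex (@inner ℝ _ _ z η) = (b z : ℂ) := by
    intro z
    rw [basic_inv, hQ,
      B.continuous.fourierInv_fourier_eq B.integrable (by rw [← hQ]; exact Q.integrable)]
    rfl
  refine ⟨Q, Q.continuous, Q.integrable, ?_, fun η => ?_, ?_, fun z hz => ?_⟩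
  · refine (Q.integrable.norm.add (Q.integrable_pow_mul volume 2)).congr
      (Eventually.of_forall fun s => ?_)
    simp only [Pi.add_apply]
    ring
  · rw [hQ, ← FT_eq, FT_eq_ex, FT_eq_ex, ← integral_neg_eq_self]
    refine integral_congr_ae (Eventually.of_forall fun y => ?_)
    have : B (-y) = B y := by
      change ((b (-y) : ℝ) : ℂ) = b y
      rw [b.neg]
    simp only [this, inner_neg_neg]
  · have := hinv 0
    simp only [inner_zero_left, ex_zero, mul_one] at this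
    rw [this, b.one_of_mem_closedBall (by simp [b]), Complex.ofReal_one]
  · rw [hinv, b.zero_of_le_dist (by simpa [b] using hz), Complex.ofReal_zero]

end Pool.Agent.Lib.MP_8ec070_an.LH
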