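import Mathlib

set_option autoImplicit false

open MeasureTheory Set Filter Topology Metric
open scoped ENNReal NNReal Real FourierTransform SchwartzMap

namespace Pool.Agent.Lib.MP_8ec070_an.LH

/-- The plane. -/
abbrev E2 : Type := EuclideanSpace ℝ (Fin 2)

/-- The character `r ↦ exp (2 π i r)`. -/
noncomputable def ex (r : ℝ) : ℂ := Complex.exp (((2 * Real.pi * r : ℝ) : ℂ) * Complex.I)

/-- The Fourier transform as written in the statement. -/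
noncomputable def FT (f : E2 → ℂ) (ξ : E2) : ℂ :=
  ∫ y, Complex.exp (((-2 * Real.pi * @inner ℝ _ _ y ξ : ℝ) : ℂ) * Complex.I) * f y

/-- The multiplier operator. -/
noncomputable def TT (μ : E2 → ℂ) (f : E2 → ℂ) (x : E2) : ℂ :=
  ∫ ξ, μ ξ * (FT f ξ * ex (@inner ℝ _ _ x ξ))

/-- The Bochner-Riesz multiplier. -/
noncomputable def mm (ε : ℝ) (ξ : E2) : ℝ := (max (1 - ‖ξ‖ ^ 2) 0) ^ ε

/-- The radial majorant at scale `R`. -/
noncomputable def nu (e R s : ℝ) : ℝ := R ^ (-e) * (1 + R * |1 - s|) ^ (e - 2)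

/-- The kernel of the multiplier `ν (‖ξ‖) ^ 2`. -/
noncomputable def LL (ν : ℝ → ℝ) (z : E2) : ℂ :=
  ∫ ξ : E2, ((ν ‖ξ‖ ^ 2 : ℝ) : ℂ) * ex (@inner ℝ _ _ z ξ)

/-- The decay of the circle measure. -/
noncomputable def kk (z : E2) : ℝ := (max ‖z‖ 1) ^ (-(1 / 2) : ℝ)

/-- The weight of a ball. -/
noncomputable def mass (φ : E2 → ℝ) (y : E2) (ρ : ℝ) : ℝ≥0∞ :=
  ∫⁻ w in ball y ρ, ENNReal.ofReal (φ w)

/-- The maximal function over all balls seen from `x`. -/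
noncomputable def GG (α : ℝ) (φ : E2 → ℝ) (x : E2) : ℝ≥0∞ :=
  ⨆ (y : E2) (ρ : ℝ) (_ : 0 < ρ),
    ENNReal.ofReal (((‖x - y‖ + ρ) ^ (1 + α) * ρ ^ (1 - α))⁻¹) * mass φ y ρ

/-- The ray maximal function as written in the statement. -/
noncomputable def MM (φ : E2 → ℝ) (x : E2) : ℝ≥0∞ :=
  ⨆ (o : E2) (_ : ‖o‖ = 1) (r : ℝ) (_ : 0 < r), ENNReal.ofReal (2 / r ^ 2) *
    ∫⁻ s in Set.Ioc (0 : ℝ) r, ENNReal.ofReal (φ (x - s • o) * s)

/-- The maximal function with the rotated kernel as written in the statement. -/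
noncomputable def MD (δ : ℝ) (φ : E2 → ℝ) (x : E2) : ℝ≥0∞ :=
  ⨆ (u : E2) (_ : ‖u‖ = 1) (r : ℝ) (_ : 0 < r), ENNReal.ofReal (1 / r ^ 2) *
    ∫⁻ y in Metric.closedBall (0 : E2) r,
      ENNReal.ofReal (δ * ‖(‖y‖⁻¹) • y - u‖ ^ (δ - 1) * φ (x - y))

/-- An even mollifier on the frequency side whose transform lives in the unit ball. -/
structure Ker (Ψ : E2 → ℂ) : Prop where
  cont : Continuous Ψ
  int : Integrable Ψ
  mom : Integrable fun η => (1 + ‖η‖ ^ 2) * ‖Ψ η‖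
  even : ∀ η, Ψ (-η) = Ψ η
  one : ∫ η, Ψ η = 1
  supp : ∀ z : E2, 1 ≤ ‖z‖ → ∫ η, Ψ η * ex (@inner ℝ _ _ z η) = 0

/-- The mollified multiplier at scale `R`. -/
noncomputable def mR (ε : ℝ) (Ψ : E2 → ℂ) (R : ℝ) (ξ : E2) : ℂ :=
  ∫ η, (mm ε (ξ - R⁻¹ • η) : ℂ) * Ψ η

/-- The operator only sees the ball of radius `R`. -/
def Loc (μ : E2 → ℂ) (R : ℝ) : Prop :=
  ∀ (g : 𝓢(E2, ℂ)) (x : E2), (∀ y ∈ ball x R, g y = 0) → TT μ g x = 0

/-- The dyadic pieces. -/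
noncomputable def pc (ε : ℝ) (Ψ : E2 → ℂ) : ℕ → E2 → ℂ
  | 0 => mR ε Ψ 1
  | j + 1 => fun ξ => mR ε Ψ (2 ^ (j + 1)) ξ - mR ε Ψ (2 ^ j) ξ

theorem ex_add (a b : ℝ) : ex (a + b) = ex a * ex b := by
  unfold ex
  rw [← Complex.exp_add]
  congr 1
  push_cast
  ring

theorem ex_zero : ex 0 = 1 := by simp [ex]

theorem norm_ex (a : ℝ) : ‖ex a‖ = 1 := Complex.norm_exp_ofReal_mul_I _

@[fun_prop] theorem continuous_ex : Continuous ex := by
  unfold ex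
  fun_prop

theorem conj_ex (a : ℝ) : (starRingEnd ℂ) (ex a) = ex (-a) := by
  unfold ex
  rw [← Complex.exp_conj, map_mul, Complex.conj_ofReal, Complex.conj_I]
  congr 1
  push_cast
  ring

theorem FT_eq_ex (f : E2 → ℂ) (ξ : E2) : FT f ξ = ∫ y, ex (-(@inner ℝ _ _ y ξ)) * f y := by
  unfold FT ex
  congr 1
  ext y
  congr 4
  ring

theorem FT_eq (f : E2 → ℂ) : FT f = 𝓕 f := by
  ext ξ
  rw [Real.fourier_eq']
  rfl

theorem mm_nonneg (ε : ℝ) (ξ : E2) : 0 ≤ mm ε ξ := Real.rpow_nonneg (le_max_right _ _) _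

theorem mm_le_one {ε : ℝ} (hε : 0 < ε) (ξ : E2) : mm ε ξ ≤ 1 :=
  Real.rpow_le_one (le_max_right _ _) (max_le (by nlinarith [sq_nonneg ‖ξ‖]) zero_le_one) hε.le

theorem mm_out {ε : ℝ} (hε : 0 < ε) {ξ : E2} (h : 1 ≤ ‖ξ‖) : mm ε ξ = 0 := by
  unfold mm
  rw [max_eq_right (by nlinarith), Real.zero_rpow hε.ne']

theorem continuous_mm {ε : ℝ} (hε : 0 < ε) : Continuous (mm ε) :=
  Continuous.rpow_const (by fun_prop) fun _ => Or.inr hε.le

theorem nu_nonneg (e : ℝ) {R : ℝ} (hR : 0 ≤ R) (s : ℝ) : 0 ≤ nu e R s := by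
  unfold nu
  positivity

theorem continuous_nu (e : ℝ) {R : ℝ} (hR : 0 ≤ R) : Continuous (nu e R) :=
  continuous_const.mul (Continuous.rpow_const (by fun_prop) fun _ => Or.inl (by positivity))

theorem nu_le {e R : ℝ} (he : e ≤ 2) (hR : 0 ≤ R) (s : ℝ) : nu e R s ≤ R ^ (-e) := by
  unfold nu
  refine mul_le_of_le_one_right (by positivity) (Real.rpow_le_one_of_one_le_of_nonpos ?_ (by linarith))
  have : 0 ≤ R * |1 - s| := by positivity
  linarith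

theorem kk_pos (z : E2) : 0 < kk z :=
  Real.rpow_pos_of_pos (lt_of_lt_of_le one_pos (le_max_right _ _)) _

theorem kk_le_one (z : E2) : kk z ≤ 1 :=
  Real.rpow_le_one_of_one_le_of_nonpos (le_max_right _ _) (by norm_num)

theorem continuous_kk : Continuous kk :=
  Continuous.rpow_const (by fun_prop) fun _ =>
    Or.inl (lt_of_lt_of_le one_pos (le_max_right _ _)).ne'

end Pool.Agent.Lib.MP_8ec070_an.LH
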