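import Pool.Agent.Lib.MP_8ec070_an.LH.Defs

set_option autoImplicit false

open MeasureTheory Set Filter Topology Metric
open scoped ENNReal NNReal Real FourierTransform SchwartzMap

namespace Pool.Agent.Lib.MP_8ec070_an.LH

theorem diff_pow_le {e ε a b : ℝ} (h0 : 0 < e) (h1 : e ≤ 1) (hε : e ≤ ε) (hb : 0 ≤ b) (hba : b ≤ a)
    (ha : a ≤ 1) : a ^ ε - b ^ ε ≤ max 1 ε * (a - b) ^ e := by
  have hd : 0 ≤ a - b := sub_nonneg.2 hba
  have hd1 : a - b ≤ 1 := by linarith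
  have hp : 0 ≤ (a - b) ^ e := Real.rpow_nonneg hd _
  rcases le_total ε 1 with h | h
  · have h2 := Real.rpow_add_le_add_rpow hb hd (h0.le.trans hε) h
    rw [add_sub_cancel] at h2
    have h3 : (a - b) ^ ε ≤ (a - b) ^ e := Real.rpow_le_rpow_of_exponent_ge' hd hd1 h0.le hε
    rw [max_eq_left h]
    linarith
  · rw [max_eq_right h]
    have h3 : a - b ≤ (a - b) ^ e := by
      have := Real.rpow_le_rpow_of_exponent_ge' hd hd1 h0.le h1
      rwa [Real.rpow_one] at this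
    refine le_trans ?_ (mul_le_mul_of_nonneg_left h3 (by linarith))
    rcases eq_or_lt_of_le (hb.trans hba) with h4 | h4
    · have hb0 : b = 0 := le_antisymm (h4 ▸ hba) hb
      rw [← h4, hb0]
      simp
    · have h5 := one_add_mul_self_le_rpow_one_add (s := b / a - 1)
        (by have := div_nonneg hb h4.le; linarith) h
      rw [add_sub_cancel, Real.div_rpow hb h4.le, le_div_iff₀ (Real.rpow_pos_of_pos h4 _)] at h5
      have h6 : a ^ ε ≤ a := by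
        have := Real.rpow_le_rpow_of_exponent_ge' h4.le ha zero_le_one h
        rwa [Real.rpow_one] at this
      have h7 : 0 ≤ 1 - b / a := sub_nonneg.2 ((div_le_one h4).2 hba)
      have h8 : (1 - b / a) * a = a - b := by field_simp
      have h9 := mul_le_mul_of_nonneg_left (mul_le_mul_of_nonneg_left h6 h7)
        (show 0 ≤ ε by linarith)
      rw [h8] at h9
      linarith

theorem diff_abs_le {e ε a b : ℝ} (h0 : 0 < e) (h1 : e ≤ 1) (hε : e ≤ ε) (ha0 : 0 ≤ a) (ha : a ≤ 1)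
    (hb0 : 0 ≤ b) (hb : b ≤ 1) : |a ^ ε - b ^ ε| ≤ max 1 ε * |a - b| ^ e := by
  rcases le_total b a with h | h
  · rw [abs_of_nonneg (sub_nonneg.2 (Real.rpow_le_rpow hb0 h (h0.le.trans hε))),
      abs_of_nonneg (sub_nonneg.2 h)]
    exact diff_pow_le h0 h1 hε hb0 h ha
  · rw [abs_sub_comm, abs_sub_comm a b,
      abs_of_nonneg (sub_nonneg.2 (Real.rpow_le_rpow ha0 h (h0.le.trans hε))),
      abs_of_nonneg (sub_nonneg.2 h)]
    exact diff_pow_le h0 h1 hε ha0 h hb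

theorem diff_lip {s t : ℝ} (hs : 0 ≤ s) (ht : 0 ≤ t) :
    |max (1 - s ^ 2) 0 - max (1 - t ^ 2) 0| ≤ 2 * |s - t| := by
  have key : ∀ s t : ℝ, 0 ≤ s → s ≤ t →
      |max (1 - s ^ 2) 0 - max (1 - t ^ 2) 0| ≤ 2 * |s - t| := by
    intro s t hs hst
    rw [abs_of_nonpos (sub_nonpos.2 hst),
      abs_of_nonneg (sub_nonneg.2 (max_le_max (by nlinarith) le_rfl))]
    rcases le_total 1 s with h | h
    · rw [max_eq_right (by nlinarith), max_eq_right (by nlinarith)]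
      linarith
    · rw [max_eq_left (by nlinarith)]
      rcases le_total 1 t with h' | h'
      · rw [max_eq_right (by nlinarith)]
        nlinarith
      · rw [max_eq_left (by nlinarith)]
        nlinarith
  rcases le_total s t with h | h
  · exact key s t hs h
  · rw [abs_sub_comm, abs_sub_comm s t]
    exact key t s ht h

theorem diff_half {e x y : ℝ} (h0 : 0 < e) (h1 : e ≤ 1) (hx : 0 < x) (hxy : x ≤ 2 * y) :
    y ^ (e - 2) ≤ 4 * x ^ (e - 2) := by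
  have h2 : y ^ (e - 2) ≤ (x / 2) ^ (e - 2) :=
    Real.rpow_le_rpow_of_nonpos (by positivity) (by linarith) (by linarith)
  refine h2.trans ?_
  rw [Real.div_rpow hx.le (by norm_num), div_le_iff₀ (by positivity)]
  have h3 : (2 : ℝ) ^ (-2 : ℝ) ≤ 2 ^ (e - 2) :=
    Real.rpow_le_rpow_of_exponent_le (by norm_num) (by linarith)
  have h4 : (2 : ℝ) ^ (-2 : ℝ) = 1 / 4 := by
    rw [Real.rpow_neg (by norm_num), Real.rpow_two]; norm_num
  have h5 : 0 < x ^ (e - 2) := Real.rpow_pos_of_pos hx _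
  rw [h4] at h3
  have h6 := mul_le_mul_of_nonneg_left h3 h5.le
  linarith

/-- First differences. -/
theorem holder_mm {e ε : ℝ} (h0 : 0 < e) (h1 : e ≤ 1) (hε : e ≤ ε) : ∃ C : ℝ, 0 < C ∧
    ∀ ξ η : E2, |mm ε (ξ + η) - mm ε ξ| ≤ C * ‖η‖ ^ e := by
  have hm : 0 < max 1 ε := lt_of_lt_of_le one_pos (le_max_left _ _)
  refine ⟨max 1 ε * 2, by positivity, fun ξ η => ?_⟩
  have b1 : ∀ x : E2, max (1 - ‖x‖ ^ 2) 0 ≤ 1 := fun x =>
    max_le (by nlinarith [sq_nonneg ‖x‖]) zero_le_one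
  refine (diff_abs_le h0 h1 hε (le_max_right _ _) (b1 _) (le_max_right _ _) (b1 _)).trans ?_
  rw [mul_assoc]
  refine mul_le_mul_of_nonneg_left ?_ hm.le
  have h2 : |max (1 - ‖ξ + η‖ ^ 2) 0 - max (1 - ‖ξ‖ ^ 2) 0| ≤ 2 * ‖η‖ := by
    refine (diff_lip (norm_nonneg _) (norm_nonneg _)).trans ?_
    have := abs_norm_sub_norm_le (ξ + η) ξ
    rw [add_sub_cancel_left] at this
    linarith
  refine (Real.rpow_le_rpow (abs_nonneg _) h2 h0.le).trans ?_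
  rw [Real.mul_rpow (by norm_num) (norm_nonneg _)]
  refine mul_le_mul_of_nonneg_right ?_ (Real.rpow_nonneg (norm_nonneg _) _)
  have := Real.rpow_le_rpow_of_exponent_le (x := 2) (by norm_num) h1
  rwa [Real.rpow_one] at this

theorem diff2_mvt {g g' g'' : ℝ → ℝ} {M : ℝ}
    (h1 : ∀ s ∈ Icc (-1 : ℝ) 1, HasDerivAt g (g' s) s)
    (h2 : ∀ s ∈ Icc (-1 : ℝ) 1, HasDerivAt g' (g'' s) s)
    (h3 : ∀ s ∈ Icc (-1 : ℝ) 1, |g'' s| ≤ M) : |g 1 + g (-1) - 2 * g 0| ≤ 2 * M := by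
  have hM : 0 ≤ M := (abs_nonneg _).trans (h3 0 (by norm_num))
  have hneg : ∀ s ∈ Icc (-1 : ℝ) 1, -s ∈ Icc (-1 : ℝ) 1 :=
    fun s hs => ⟨by linarith [hs.2], by linarith [hs.1]⟩
  have hk : ∀ s ∈ Icc (-1 : ℝ) 1,
      HasDerivWithinAt (fun s => g s + g (-s)) (g' s - g' (-s)) (Icc (-1 : ℝ) 1) s := by
    intro s hs
    have a := (h1 (-s) (hneg s hs)).comp s (hasDerivAt_neg s)
    have b := (h1 s hs).add a
    rw [mul_neg_one, ← sub_eq_add_neg] at b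
    exact b.hasDerivWithinAt
  have hb : ∀ s ∈ Icc (-1 : ℝ) 1, ‖g' s - g' (-s)‖ ≤ 2 * M := by
    intro s hs
    have a := (convex_Icc (-1 : ℝ) 1).norm_image_sub_le_of_norm_hasDerivWithin_le
      (fun s hs => (h2 s hs).hasDerivWithinAt) h3 (hneg s hs) hs
    have b : ‖s - -s‖ ≤ 2 := by
      rw [Real.norm_eq_abs, abs_le]
      constructor <;> linarith [hs.1, hs.2]
    nlinarith
  have a := (convex_Icc (-1 : ℝ) 1).norm_image_sub_le_of_norm_hasDerivWithin_le hk hb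
    (x := 0) (y := 1) (by norm_num) (by norm_num)
  rw [Real.norm_eq_abs, neg_zero, sub_zero, norm_one, mul_one, ← two_mul] at a
  exact a

theorem diff2_scalar {e ε x y b : ℝ} (h0 : 0 < e) (h1 : e ≤ 1) (hε : e ≤ ε) (hx : 0 ≤ x)
    (hy : 0 ≤ y) (hb : |b| ≤ x * y) (ht : 2 * y < 1 - x) :
    |(1 - (x ^ 2 + 2 * b + y ^ 2)) ^ ε + (1 - (x ^ 2 - 2 * b + y ^ 2)) ^ ε - 2 * (1 - x ^ 2) ^ ε| ≤
      2 * ((4 * ε * |ε - 1| + 2 * ε) * (1 / 2) ^ (e - 2)) * y ^ 2 * (1 - x) ^ (e - 2) := by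
  have hε0 : 0 < ε := h0.trans_le hε
  obtain ⟨hb1, hb2⟩ := abs_le.1 hb
  have hu : ∀ s ∈ Icc (-1 : ℝ) 1, 1 / 2 * (1 - x) ≤ 1 - x ^ 2 - 2 * b * s - y ^ 2 * s ^ 2 ∧
      1 - x ^ 2 - 2 * b * s - y ^ 2 * s ^ 2 ≤ 1 ∧ (-(2 * b) - 2 * y ^ 2 * s) ^ 2 ≤ 4 * y ^ 2 := by
    intro s hs
    have s1 : |s| ≤ 1 := abs_le.2 ⟨hs.1, hs.2⟩
    have s0 := abs_nonneg s
    have s2 : s ^ 2 ≤ 1 := by nlinarith [hs.1, hs.2]
    have a1 : |b * s| ≤ x * y * |s| := by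
      rw [abs_mul]
      exact mul_le_mul_of_nonneg_right hb s0
    have a2 : x * y * |s| ≤ x * y := mul_le_of_le_one_right (mul_nonneg hx hy) s1
    obtain ⟨a3, a4⟩ := abs_le.1 a1
    have a5 : y ^ 2 * s ^ 2 ≤ y ^ 2 := mul_le_of_le_one_right (sq_nonneg y) s2
    refine ⟨?_, ?_, ?_⟩
    · have : (x + y) * (x + y) ≤ (x + y) * 1 :=
        mul_le_mul_of_nonneg_left (by linarith) (by linarith)
      nlinarith
    · have := sq_nonneg (x - y * |s|)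
      have e1 : |s| ^ 2 = s ^ 2 := sq_abs s
      nlinarith
    · have a6 : y * (x + y) ≤ y * 1 := mul_le_mul_of_nonneg_left (by linarith) hy
      have a7 : y ^ 2 * s ≤ y ^ 2 := mul_le_of_le_one_right (sq_nonneg y) hs.2
      have a8 : -(y ^ 2) ≤ y ^ 2 * s := by nlinarith [hs.1, sq_nonneg y]
      have a9 : |(-(2 * b) - 2 * y ^ 2 * s)| ≤ 2 * y := by
        rw [abs_le]
        constructor <;> nlinarith
      have := pow_le_pow_left₀ (abs_nonneg _) a9 2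
      rw [sq_abs] at this
      linarith
  have ht0 : 0 < 1 / 2 * (1 - x) := by linarith
  have du : ∀ s : ℝ, HasDerivAt (fun s : ℝ => 1 - x ^ 2 - 2 * b * s - y ^ 2 * s ^ 2)
      (-(2 * b) - 2 * y ^ 2 * s) s := by
    intro s
    have a := (((hasDerivAt_id s).const_mul (2 * b)).const_sub (1 - x ^ 2)).sub
      ((hasDerivAt_pow 2 s).const_mul (y ^ 2))
    refine a.congr_deriv ?_
    simp only [Nat.cast_ofNat, Nat.add_one_sub_one, pow_one]
    ring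
  have du' : ∀ s : ℝ, HasDerivAt (fun s : ℝ => -(2 * b) - 2 * y ^ 2 * s) (-(2 * y ^ 2)) s := by
    intro s
    have a := ((hasDerivAt_id s).const_mul (2 * y ^ 2)).const_sub (-(2 * b))
    rw [mul_one] at a
    exact a
  have key := diff2_mvt (g := fun s => (1 - x ^ 2 - 2 * b * s - y ^ 2 * s ^ 2) ^ ε)
    (g' := fun s => (-(2 * b) - 2 * y ^ 2 * s) * ε *
      (1 - x ^ 2 - 2 * b * s - y ^ 2 * s ^ 2) ^ (ε - 1))
    (g'' := fun s => -(2 * y ^ 2) * ε * (1 - x ^ 2 - 2 * b * s - y ^ 2 * s ^ 2) ^ (ε - 1) +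
      (-(2 * b) - 2 * y ^ 2 * s) * ε * ((-(2 * b) - 2 * y ^ 2 * s) * (ε - 1) *
        (1 - x ^ 2 - 2 * b * s - y ^ 2 * s ^ 2) ^ (ε - 1 - 1)))
    (M := (4 * ε * |ε - 1| + 2 * ε) * (1 / 2) ^ (e - 2) * y ^ 2 * (1 - x) ^ (e - 2))
    (fun s hs => (du s).rpow_const (Or.inl (ht0.trans_le (hu s hs).1).ne'))
    (fun s hs => ((du' s).mul_const ε).mul
      ((du s).rpow_const (Or.inl (ht0.trans_le (hu s hs).1).ne')))
    (by
      intro s hs
      obtain ⟨u1, u2, u3⟩ := hu s hs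
      have u0 := ht0.trans_le u1
      generalize 1 - x ^ 2 - 2 * b * s - y ^ 2 * s ^ 2 = u at u0 u1 u2 ⊢
      generalize -(2 * b) - 2 * y ^ 2 * s = d at u3 ⊢
      have w0 : u ^ (e - 2) ≤ (1 / 2) ^ (e - 2) * (1 - x) ^ (e - 2) := by
        rw [← Real.mul_rpow (by norm_num) (by linarith)]
        exact Real.rpow_le_rpow_of_nonpos ht0 u1 (by linarith)
      have w1 : u ^ (ε - 1) ≤ (1 / 2) ^ (e - 2) * (1 - x) ^ (e - 2) :=
        (Real.rpow_le_rpow_of_exponent_ge u0 u2 (by linarith)).trans w0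
      have w2 : u ^ (ε - 1 - 1) ≤ (1 / 2) ^ (e - 2) * (1 - x) ^ (e - 2) :=
        (Real.rpow_le_rpow_of_exponent_ge u0 u2 (by linarith)).trans w0
      have p1 : 0 ≤ u ^ (ε - 1) := Real.rpow_nonneg u0.le _
      have p2 : 0 ≤ u ^ (ε - 1 - 1) := Real.rpow_nonneg u0.le _
      have e1 : |-(2 * y ^ 2) * ε * u ^ (ε - 1)| = 2 * y ^ 2 * ε * u ^ (ε - 1) := by
        rw [neg_mul, neg_mul, abs_neg, abs_of_nonneg (by positivity)]
      have e2 : |d * ε * (d * (ε - 1) * u ^ (ε - 1 - 1))| =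
          d ^ 2 * (ε * |ε - 1|) * u ^ (ε - 1 - 1) := by
        have : d * ε * (d * (ε - 1) * u ^ (ε - 1 - 1)) =
            d ^ 2 * ε * u ^ (ε - 1 - 1) * (ε - 1) := by ring
        rw [this, abs_mul, abs_of_nonneg (by positivity)]
        ring
      have b1 : 2 * y ^ 2 * ε * u ^ (ε - 1) ≤
          2 * y ^ 2 * ε * ((1 / 2) ^ (e - 2) * (1 - x) ^ (e - 2)) :=
        mul_le_mul_of_nonneg_left w1 (by positivity)
      have b2 : d ^ 2 * (ε * |ε - 1|) * u ^ (ε - 1 - 1) ≤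
          4 * y ^ 2 * (ε * |ε - 1|) * ((1 / 2) ^ (e - 2) * (1 - x) ^ (e - 2)) :=
        mul_le_mul (mul_le_mul_of_nonneg_right u3 (by positivity)) w2 p2 (by positivity)
      refine (abs_add_le _ _).trans ?_
      rw [e1, e2]
      refine (add_le_add b1 b2).trans (le_of_eq ?_)
      ring)
  have e1 : 1 - x ^ 2 - 2 * b * 1 - y ^ 2 * 1 ^ 2 = 1 - (x ^ 2 + 2 * b + y ^ 2) := by ring
  have e2 : 1 - x ^ 2 - 2 * b * (-1) - y ^ 2 * (-1) ^ 2 = 1 - (x ^ 2 - 2 * b + y ^ 2) := by ring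
  have e3 : 1 - x ^ 2 - 2 * b * 0 - y ^ 2 * 0 ^ 2 = 1 - x ^ 2 := by ring
  simp only [e1, e2, e3] at key
  refine key.trans (le_of_eq ?_)
  ring

/-- Second differences inside the disc, away from the circle. -/
theorem second_in {e ε : ℝ} (h0 : 0 < e) (h1 : e ≤ 1) (hε : e ≤ ε) : ∃ C : ℝ, 0 < C ∧
    ∀ ξ η : E2, 2 * ‖η‖ < 1 - ‖ξ‖ →
      |mm ε (ξ + η) + mm ε (ξ - η) - 2 * mm ε ξ| ≤ C * ‖η‖ ^ 2 * (1 - ‖ξ‖) ^ (e - 2) := by
  have hε0 : 0 < ε := h0.trans_le hε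
  refine ⟨2 * ((4 * ε * |ε - 1| + 2 * ε) * (1 / 2) ^ (e - 2)), by positivity, fun ξ η h => ?_⟩
  have hx := norm_nonneg ξ
  have hy := norm_nonneg η
  have m : ∀ ζ : E2, ‖ζ‖ ≤ 1 → mm ε ζ = (1 - ‖ζ‖ ^ 2) ^ ε := by
    intro ζ hζ
    unfold mm
    rw [max_eq_left (by nlinarith [norm_nonneg ζ])]
  rw [m (ξ + η) ((norm_add_le _ _).trans (by linarith)),
    m (ξ - η) ((norm_sub_le _ _).trans (by linarith)), m ξ (by linarith), norm_add_sq_real,
    norm_sub_sq_real]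
  exact diff2_scalar h0 h1 hε hx hy (abs_real_inner_le_norm ξ η) h

/-- Second differences at scale `R`. -/
theorem second_nu {e ε : ℝ} (h0 : 0 < e) (h1 : e ≤ 1) (hε : e ≤ ε) : ∃ C : ℝ, 0 < C ∧
    ∀ R : ℝ, 1 ≤ R → ∀ ξ η : E2, |mm ε (ξ + R⁻¹ • η) + mm ε (ξ - R⁻¹ • η) - 2 * mm ε ξ| ≤
      C * (1 + ‖η‖ ^ 2) * nu e R ‖ξ‖ := by
  obtain ⟨C₁, hC₁, H₁⟩ := holder_mm h0 h1 hε
  obtain ⟨C₂, hC₂, H₂⟩ := second_in h0 h1 hε
  have hol : ∀ ξ h : E2, |mm ε (ξ + h) + mm ε (ξ - h) - 2 * mm ε ξ| ≤ 2 * C₁ * ‖h‖ ^ e := by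
    intro ξ h
    have a1 := abs_le.1 (H₁ ξ h)
    have a2 := abs_le.1 (H₁ ξ (-h))
    rw [norm_neg, ← sub_eq_add_neg] at a2
    rw [abs_le]
    constructor <;> linarith [a1.1, a1.2, a2.1, a2.2]
  have far : ∀ ξ h : E2, 0 < |1 - ‖ξ‖| → |mm ε (ξ + h) + mm ε (ξ - h) - 2 * mm ε ξ| ≤
      (8 * C₁ + C₂) * (‖h‖ ^ 2 * |1 - ‖ξ‖| ^ (e - 2)) := by
    intro ξ h ht
    have hp : 0 ≤ ‖h‖ ^ 2 * |1 - ‖ξ‖| ^ (e - 2) := by positivity
    rcases le_or_gt |1 - ‖ξ‖| (2 * ‖h‖) with h2 | h2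
    · have hh : 0 < ‖h‖ := by linarith
      have e1 : ‖h‖ ^ e = ‖h‖ ^ 2 * ‖h‖ ^ (e - 2) := by
        rw [← Real.rpow_two, ← Real.rpow_add hh]; congr 1; ring
      have e2 := mul_le_mul_of_nonneg_left (diff_half h0 h1 ht h2) (sq_nonneg ‖h‖)
      have e3 := hol ξ h
      rw [e1] at e3
      nlinarith [mul_le_mul_of_nonneg_left e2 hC₁.le, mul_nonneg hC₂.le hp]
    · rcases le_total ‖ξ‖ 1 with h3 | h3
      · rw [abs_of_nonneg (sub_nonneg.2 h3)] at h2 hp ⊢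
        have := H₂ ξ h h2
        nlinarith [mul_nonneg hC₁.le hp]
      · rw [abs_of_nonpos (sub_nonpos.2 h3)] at h2
        have n1 : ‖ξ‖ ≤ ‖ξ + h‖ + ‖h‖ := by simpa using norm_sub_le (ξ + h) h
        have n2 : ‖ξ‖ ≤ ‖ξ - h‖ + ‖h‖ := by simpa using norm_add_le (ξ - h) h
        have hε0 : 0 < ε := h0.trans_le hε
        rw [mm_out hε0 h3, mm_out hε0 (ξ := ξ + h) (by linarith [norm_nonneg h]),
          mm_out hε0 (ξ := ξ - h) (by linarith [norm_nonneg h])]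
        simp only [add_zero, mul_zero, sub_zero, abs_zero]
        positivity
  refine ⟨4 * (8 * C₁ + C₂), by positivity, fun R hR ξ η => ?_⟩
  have hR0 : 0 < R := by linarith
  have hn : ‖R⁻¹ • η‖ = R⁻¹ * ‖η‖ := by rw [norm_smul, Real.norm_eq_abs, abs_of_pos (inv_pos.2 hR0)]
  have hRe : 0 < R ^ (-e) := Real.rpow_pos_of_pos hR0 _
  unfold nu
  generalize ht : |1 - ‖ξ‖| = t
  have ht0 : 0 ≤ t := ht ▸ abs_nonneg _
  have hx : 0 < 1 + R * t := by positivity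
  have hxe : 0 < (1 + R * t) ^ (e - 2) := Real.rpow_pos_of_pos hx _
  rcases le_or_gt (R * t) 1 with h2 | h2
  · have e1 := diff_half h0 h1 hx (y := 1) (by linarith)
    rw [Real.one_rpow] at e1
    have e2 : ‖η‖ ^ e ≤ 1 + ‖η‖ ^ 2 := by
      rcases le_total ‖η‖ 1 with h3 | h3
      · have := Real.rpow_le_one (norm_nonneg η) h3 h0.le
        nlinarith [sq_nonneg ‖η‖]
      · have := Real.rpow_le_rpow_of_exponent_le h3 (show e ≤ 2 by linarith)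
        rw [Real.rpow_two] at this
        linarith
    refine (hol ξ _).trans ?_
    rw [hn, Real.mul_rpow (inv_pos.2 hR0).le (norm_nonneg _), Real.inv_rpow hR0.le,
      ← Real.rpow_neg hR0.le]
    have e3 : ‖η‖ ^ e * 1 ≤ (1 + ‖η‖ ^ 2) * (4 * (1 + R * t) ^ (e - 2)) :=
      mul_le_mul e2 e1 zero_le_one (by positivity)
    have e4 := mul_le_mul_of_nonneg_left e3 (show 0 ≤ 2 * C₁ * R ^ (-e) by positivity)
    have e5 : 0 ≤ (24 * C₁ + 4 * C₂) * ((1 + ‖η‖ ^ 2) * (R ^ (-e) * (1 + R * t) ^ (e - 2))) := by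
      positivity
    nlinarith
  · have htp : 0 < t := by
      rcases eq_or_lt_of_le ht0 with h | h
      · rw [← h] at h2; linarith
      · exact h
    have e1 := diff_half h0 h1 hx (y := R * t) (by linarith)
    have e2 := far ξ (R⁻¹ • η) (ht ▸ htp)
    rw [ht, hn] at e2
    have e3 : (R⁻¹ * ‖η‖) ^ 2 * t ^ (e - 2) = ‖η‖ ^ 2 * (R ^ (-e) * (R * t) ^ (e - 2)) := by
      rw [Real.mul_rpow hR0.le ht0, ← mul_assoc (R ^ (-e)), ← Real.rpow_add hR0,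
        show -e + (e - 2) = -2 by ring, Real.rpow_neg hR0.le, Real.rpow_two]
      field_simp
    rw [e3] at e2
    refine e2.trans ?_
    have e4 : ‖η‖ ^ 2 * (R ^ (-e) * (R * t) ^ (e - 2)) ≤
        (1 + ‖η‖ ^ 2) * (R ^ (-e) * (4 * (1 + R * t) ^ (e - 2))) :=
      mul_le_mul (by linarith) (mul_le_mul_of_nonneg_left e1 hRe.le) (by positivity)
        (by positivity)
    have e5 := mul_le_mul_of_nonneg_left e4 (show 0 ≤ 8 * C₁ + C₂ by positivity)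
    nlinarith

end Pool.Agent.Lib.MP_8ec070_an.LH
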