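import Pool.Agent.Lib.MP_8ec070_an.LH.Defs

set_option autoImplicit false

open MeasureTheory Set Filter Topology Metric
open scoped ENNReal NNReal Real FourierTransform SchwartzMap

namespace Pool.Agent.Lib.MP_8ec070_an.LH

theorem norm_LL_neg (ν : ℝ → ℝ) (z : E2) : ‖LL ν (-z)‖ = ‖LL ν z‖ := by
  have h : LL ν (-z) = (starRingEnd ℂ) (LL ν z) := by
    unfold LL
    rw [← integral_conj]
    refine integral_congr_ae (Eventually.of_forall fun ξ => ?_)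
    simp only [map_mul, Complex.conj_ofReal, conj_ex, inner_neg_left]
  rw [h, Complex.norm_conj]

theorem dual_norm_term (ν : ℝ → ℝ) (r : ℝ) (ξ : E2) :
    ‖((ν ‖ξ‖ ^ 2 : ℝ) : ℂ) * ex r‖ = ν ‖ξ‖ ^ 2 := by
  rw [norm_mul, norm_ex, mul_one, Complex.norm_real, Real.norm_of_nonneg (sq_nonneg _)]

theorem dual_norm_LL_le {ν : ℝ → ℝ} (hi : Integrable fun ξ : E2 => ν ‖ξ‖ ^ 2) (z : E2) :
    ‖LL ν z‖ ≤ ∫ ξ : E2, ν ‖ξ‖ ^ 2 :=
  norm_integral_le_of_norm_le hi (Eventually.of_forall fun ξ => (dual_norm_term ν _ ξ).le)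

theorem continuous_LL {ν : ℝ → ℝ} (hi : Integrable fun ξ : E2 => ν ‖ξ‖ ^ 2) :
    Continuous (LL ν) := by
  refine continuous_of_dominated (fun z => ?_)
    (fun z => Eventually.of_forall fun ξ => (dual_norm_term ν _ ξ).le) hi
    (Eventually.of_forall fun ξ => by fun_prop)
  exact hi.ofReal.aestronglyMeasurable.mul
    (by fun_prop : Continuous fun ξ : E2 => ex (@inner ℝ _ _ z ξ)).aestronglyMeasurable

theorem dual_expand {a : E2 → ℂ} (ξ : E2) :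
    ((‖∫ x, a x * ex (-(@inner ℝ _ _ x ξ))‖ ^ 2 : ℝ) : ℂ) =
      ∫ p : E2 × E2, a p.1 * (starRingEnd ℂ) (a p.2) * ex (@inner ℝ _ _ (p.2 - p.1) ξ)
        ∂(volume.prod volume) := by
  rw [← Complex.normSq_eq_norm_sq, ← Complex.mul_conj, ← integral_conj, ← integral_prod_mul]
  refine integral_congr_ae (Eventually.of_forall fun p => ?_)
  simp only [map_mul, conj_ex, neg_neg, sub_eq_add_neg, inner_add_left, inner_neg_left, ex_add]
  ring

theorem dual_swap {ν : ℝ → ℝ} (hi : Integrable fun ξ : E2 => ν ‖ξ‖ ^ 2) {a : E2 → ℂ}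
    (ha : Integrable a) :
    ((∫ ξ : E2, ν ‖ξ‖ ^ 2 * ‖∫ x, a x * ex (-(@inner ℝ _ _ x ξ))‖ ^ 2 : ℝ) : ℂ) =
      ∫ p : E2 × E2, a p.1 * (starRingEnd ℂ) (a p.2) * LL ν (p.2 - p.1)
        ∂(volume.prod volume) := by
  have hc : Integrable fun x => (starRingEnd ℂ) (a x) :=
    Complex.conjCLE.toContinuousLinearMap.integrable_comp ha
  have h1 := (hi.ofReal (𝕜 := ℂ)).mul_prod (ha.mul_prod hc)
  have h2 : Integrable (fun q : E2 × (E2 × E2) => ((ν ‖q.1‖ ^ 2 : ℝ) : ℂ) *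
      (a q.2.1 * (starRingEnd ℂ) (a q.2.2)) * ex (@inner ℝ _ _ (q.2.2 - q.2.1) q.1))
      (volume.prod (volume.prod volume)) :=
    h1.mul_bdd (c := 1) (by fun_prop : Continuous fun q : E2 × (E2 × E2) =>
      ex (@inner ℝ _ _ (q.2.2 - q.2.1) q.1)).aestronglyMeasurable
      (Eventually.of_forall fun q => (norm_ex _).le)
  have h3 := integral_integral_swap (f := fun (ξ : E2) (p : E2 × E2) => ((ν ‖ξ‖ ^ 2 : ℝ) : ℂ) *
      (a p.1 * (starRingEnd ℂ) (a p.2)) * ex (@inner ℝ _ _ (p.2 - p.1) ξ)) h2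
  rw [← integral_complex_ofReal]
  refine Eq.trans (integral_congr_ae (Eventually.of_forall fun ξ => ?_))
    (h3.trans (integral_congr_ae (Eventually.of_forall fun p => ?_)))
  · beta_reduce
    rw [Complex.ofReal_mul, dual_expand, ← integral_const_mul]
    simp only [mul_assoc]
  · beta_reduce
    rw [LL, ← integral_const_mul]
    refine integral_congr_ae (Eventually.of_forall fun ξ => ?_)
    beta_reduce
    ring

/-- The dual form: expansion of the square and the Schur test. -/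
theorem dual_sq {ν : ℝ → ℝ} (hc : Continuous ν) (hi : Integrable fun ξ : E2 => ν ‖ξ‖ ^ 2)
    {u : E2 → ℂ} (hu : Continuous u) {B : ℝ} (hB : ∀ x, ‖u x‖ ≤ B) {w : E2 → ℝ}
    (hw0 : ∀ x, 0 ≤ w x) (hw : Integrable w) {W : ℝ}
    (hW : ∀ x, w x ≠ 0 → ∫ x', ‖LL ν (x - x')‖ * w x' ≤ W) :
    ∫ ξ : E2, ν ‖ξ‖ ^ 2 * ‖∫ x, u x * (w x : ℂ) * ex (-(@inner ℝ _ _ x ξ))‖ ^ 2 ≤
      W * ∫ x, ‖u x‖ ^ 2 * w x := by
  have ha : Integrable fun x => u x * (w x : ℂ) :=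
    (hw.ofReal (𝕜 := ℂ)).bdd_mul hu.aestronglyMeasurable (Eventually.of_forall hB)
  have hL := continuous_LL hi
  have hb : Integrable fun x => ‖u x‖ ^ 2 * w x :=
    hw.bdd_mul (c := B ^ 2) (hu.norm.pow 2).aestronglyMeasurable (Eventually.of_forall fun x => by
      rw [norm_pow, norm_norm]
      exact pow_le_pow_left₀ (norm_nonneg _) (hB x) 2)
  let k : E2 × E2 → ℝ := fun p => ‖u p.1‖ ^ 2 * w p.1 * w p.2 * ‖LL ν (p.1 - p.2)‖
  have hk : Integrable k (volume.prod volume) :=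
    (hb.mul_prod hw).mul_bdd (c := ∫ ξ : E2, ν ‖ξ‖ ^ 2)
      (by fun_prop : Continuous fun p : E2 × E2 => ‖LL ν (p.1 - p.2)‖).aestronglyMeasurable
      (Eventually.of_forall fun p => by rw [norm_norm]; exact dual_norm_LL_le hi _)
  have h1 : ∫ p, k p ∂(volume.prod volume) ≤ W * ∫ x, ‖u x‖ ^ 2 * w x := by
    rw [integral_prod _ hk, ← integral_const_mul]
    refine integral_mono hk.integral_prod_left (hb.const_mul W) fun x => ?_
    have e : ∫ y, k (x, y) = ‖u x‖ ^ 2 * w x * ∫ y, ‖LL ν (x - y)‖ * w y := by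
      rw [← integral_const_mul]
      refine integral_congr_ae (Eventually.of_forall fun y => ?_)
      simp only [k]
      ring
    beta_reduce
    rw [e]
    by_cases h : w x = 0
    · simp [h]
    · rw [mul_comm W]
      exact mul_le_mul_of_nonneg_left (hW x h) (mul_nonneg (sq_nonneg _) (hw0 x))
  have h2 : ∫ p, k p.swap ∂(volume.prod volume) = ∫ p, k p ∂(volume.prod volume) :=
    integral_prod_swap k
  have h3 : ‖∫ p : E2 × E2, u p.1 * (w p.1 : ℂ) * (starRingEnd ℂ) (u p.2 * (w p.2 : ℂ)) *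
      LL ν (p.2 - p.1) ∂(volume.prod volume)‖ ≤
      ∫ p, 2⁻¹ * (k p + k p.swap) ∂(volume.prod volume) := by
    refine norm_integral_le_of_norm_le ((hk.add hk.swap).const_mul _)
      (Eventually.of_forall fun p => ?_)
    have e : ‖LL ν (p.1 - p.2)‖ = ‖LL ν (p.2 - p.1)‖ := by rw [← norm_LL_neg, neg_sub]
    simp only [k, norm_mul, Complex.norm_conj, Complex.norm_real, Prod.fst_swap, Prod.snd_swap,
      Real.norm_of_nonneg (hw0 _), e]
    have h4 : 0 ≤ w p.1 * w p.2 * ‖LL ν (p.2 - p.1)‖ :=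
      mul_nonneg (mul_nonneg (hw0 _) (hw0 _)) (norm_nonneg _)
    nlinarith [mul_nonneg h4 (sq_nonneg (‖u p.1‖ - ‖u p.2‖))]
  have hk' : Integrable (fun p : E2 × E2 => k p.swap) (volume.prod volume) := hk.swap
  rw [← dual_swap hi ha, Complex.norm_real, integral_const_mul, integral_add hk hk', h2] at h3
  have h5 := (le_abs_self _).trans h3
  linarith

/-- The `T T*` argument. -/
theorem tt_star {ν : ℝ → ℝ} (hc : Continuous ν) (h0 : ∀ s, 0 ≤ ν s)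
    (hi : Integrable fun ξ : E2 => ν ‖ξ‖ ^ 2) {μ F : E2 → ℂ} (hμ : Continuous μ)
    (hle : ∀ ξ, ‖μ ξ‖ ≤ ν ‖ξ‖) (hF : MemLp F 2 volume) {w : E2 → ℝ} (hw0 : ∀ x, 0 ≤ w x)
    (hw : Integrable w) {W : ℝ} (hW0 : 0 ≤ W)
    (hW : ∀ x, w x ≠ 0 → ∫ x', ‖LL ν (x - x')‖ * w x' ≤ W) :
    ∫ x, ‖∫ ξ, μ ξ * (F ξ * ex (@inner ℝ _ _ x ξ))‖ ^ 2 * w x ≤ W * ∫ ξ, ‖F ξ‖ ^ 2 := by
  have hF2 : Integrable fun ξ => ‖F ξ‖ ^ 2 := (memLp_two_iff_integrable_sq_norm hF.1).1 hF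
  have hGm : AEStronglyMeasurable (fun ξ => μ ξ * F ξ) volume := hμ.aestronglyMeasurable.mul hF.1
  have hGle : ∀ ξ, ‖μ ξ * F ξ‖ ≤ ν ‖ξ‖ * ‖F ξ‖ := fun ξ => by
    rw [norm_mul]
    exact mul_le_mul_of_nonneg_right (hle ξ) (norm_nonneg _)
  have hG : Integrable fun ξ => μ ξ * F ξ :=
    (hi.add hF2).mono' hGm (Eventually.of_forall fun ξ => (hGle ξ).trans (by
      have := mul_nonneg (h0 ‖ξ‖) (norm_nonneg (F ξ))
      simp only [Pi.add_apply]
      nlinarith [sq_nonneg (ν ‖ξ‖ - ‖F ξ‖)]))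
  obtain ⟨u, hu⟩ : ∃ u : E2 → ℂ, u = fun x => ∫ ξ, μ ξ * (F ξ * ex (@inner ℝ _ _ x ξ)) := ⟨_, rfl⟩
  have hn : ∀ x ξ : E2, ‖μ ξ * (F ξ * ex (@inner ℝ _ _ x ξ))‖ = ‖μ ξ * F ξ‖ := fun x ξ => by
    rw [← mul_assoc, norm_mul, norm_ex, mul_one]
  have huc : Continuous u := by
    rw [hu]
    refine continuous_of_dominated (bound := fun ξ => ‖μ ξ * F ξ‖) (fun x => ?_)
      (fun x => Eventually.of_forall fun ξ => (hn x ξ).le) hG.norm
      (Eventually.of_forall fun ξ => by fun_prop)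
    exact hμ.aestronglyMeasurable.mul (hF.1.mul (Continuous.aestronglyMeasurable (by fun_prop)))
  obtain ⟨B, hB⟩ : ∃ B : ℝ, ∀ x, ‖u x‖ ≤ B := ⟨∫ ξ, ‖μ ξ * F ξ‖, fun x => by
    rw [hu]
    exact norm_integral_le_of_norm_le hG.norm (Eventually.of_forall fun ξ => (hn x ξ).le)⟩
  have hwC : Integrable fun x => (w x : ℂ) := hw.ofReal
  have huw : Integrable fun x => u x * (w x : ℂ) :=
    hwC.bdd_mul huc.aestronglyMeasurable (Eventually.of_forall hB)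
  obtain ⟨v, hv⟩ : ∃ v : E2 → ℂ,
      v = fun ξ => ∫ x, u x * (w x : ℂ) * ex (-(@inner ℝ _ _ x ξ)) := ⟨_, rfl⟩
  have hn' : ∀ ξ x : E2, ‖u x * (w x : ℂ) * ex (-(@inner ℝ _ _ x ξ))‖ = ‖u x * (w x : ℂ)‖ :=
    fun ξ x => by rw [norm_mul, norm_ex, mul_one]
  have hvc : Continuous v := by
    rw [hv]
    refine continuous_of_dominated (bound := fun x => ‖u x * (w x : ℂ)‖) (fun ξ => ?_)
      (fun ξ => Eventually.of_forall fun x => (hn' ξ x).le) huw.norm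
      (Eventually.of_forall fun x => by fun_prop)
    exact huw.1.mul (Continuous.aestronglyMeasurable (by fun_prop))
  obtain ⟨B', hB'⟩ : ∃ B' : ℝ, ∀ ξ, ‖v ξ‖ ≤ B' := ⟨∫ x, ‖u x * (w x : ℂ)‖, fun ξ => by
    rw [hv]
    exact norm_integral_le_of_norm_le huw.norm (Eventually.of_forall fun x => (hn' ξ x).le)⟩
  have hJ : Integrable fun ξ : E2 => ν ‖ξ‖ ^ 2 * ‖v ξ‖ ^ 2 :=
    hi.mul_bdd (c := B' ^ 2) (Continuous.aestronglyMeasurable (by fun_prop))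
      (Eventually.of_forall fun ξ => by
        rw [norm_pow, norm_norm]
        exact pow_le_pow_left₀ (norm_nonneg _) (hB' ξ) 2)
  have hd : ∫ ξ : E2, ν ‖ξ‖ ^ 2 * ‖v ξ‖ ^ 2 ≤ W * ∫ x, ‖u x‖ ^ 2 * w x := by
    rw [hv]
    exact dual_sq hc hi huc hB hw0 hw hW
  have hcw : Integrable fun x => (starRingEnd ℂ) (u x * (w x : ℂ)) :=
    (LinearIsometryEquiv.integrable_comp_iff Complex.conjLIE).2 huw
  have hI : ((∫ x, ‖u x‖ ^ 2 * w x : ℝ) : ℂ) = ∫ ξ, μ ξ * F ξ * (starRingEnd ℂ) (v ξ) := by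
    have hp : Integrable (Function.uncurry fun x ξ : E2 => (starRingEnd ℂ) (u x * (w x : ℂ)) *
        (μ ξ * F ξ) * ex (@inner ℝ _ _ x ξ)) (volume.prod volume) :=
      (hcw.mul_prod hG).mul_bdd (c := 1) (Continuous.aestronglyMeasurable (by fun_prop))
        (Eventually.of_forall fun z => (norm_ex _).le)
    calc ((∫ x, ‖u x‖ ^ 2 * w x : ℝ) : ℂ)
        = ∫ x, ∫ ξ, (starRingEnd ℂ) (u x * (w x : ℂ)) * (μ ξ * F ξ) * ex (@inner ℝ _ _ x ξ) := by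
          rw [← integral_complex_ofReal]
          refine integral_congr_ae (Eventually.of_forall fun x => ?_)
          have e : ∫ ξ, (starRingEnd ℂ) (u x * (w x : ℂ)) * (μ ξ * F ξ) * ex (@inner ℝ _ _ x ξ) =
              (starRingEnd ℂ) (u x * (w x : ℂ)) * u x := by
            nth_rewrite 3 [hu]
            rw [← integral_const_mul]
            exact integral_congr_ae (Eventually.of_forall fun ξ => by ring)
          beta_reduce
          rw [e, map_mul, Complex.conj_ofReal, mul_right_comm, Complex.conj_mul']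
          push_cast
          rfl
      _ = ∫ ξ, ∫ x, (starRingEnd ℂ) (u x * (w x : ℂ)) * (μ ξ * F ξ) * ex (@inner ℝ _ _ x ξ) :=
          integral_integral_swap hp
      _ = _ := by
          refine integral_congr_ae (Eventually.of_forall fun ξ => ?_)
          rw [hv]
          beta_reduce
          rw [← integral_conj, ← integral_const_mul]
          refine integral_congr_ae (Eventually.of_forall fun x => ?_)
          beta_reduce
          rw [map_mul (starRingEnd ℂ) (u x * (w x : ℂ)), conj_ex, neg_neg]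
          ring
  have hI0 : 0 ≤ ∫ x, ‖u x‖ ^ 2 * w x := integral_nonneg fun x => mul_nonneg (sq_nonneg _) (hw0 x)
  have hA0 : 0 ≤ ∫ ξ, ‖F ξ‖ ^ 2 := integral_nonneg fun ξ => sq_nonneg _
  have key : ∀ t : ℝ, W < t → ∫ x, ‖u x‖ ^ 2 * w x ≤ t * ∫ ξ, ‖F ξ‖ ^ 2 := fun t ht => by
    have ht0 : 0 < t := hW0.trans_lt ht
    have h1 : ‖((∫ x, ‖u x‖ ^ 2 * w x : ℝ) : ℂ)‖ ≤
        ∫ ξ : E2, (t / 2 * ‖F ξ‖ ^ 2 + (2 * t)⁻¹ * (ν ‖ξ‖ ^ 2 * ‖v ξ‖ ^ 2)) := by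
      rw [hI]
      refine norm_integral_le_of_norm_le ((hF2.const_mul _).add (hJ.const_mul _))
        (Eventually.of_forall fun ξ => ?_)
      rw [norm_mul, Complex.norm_conj]
      refine (mul_le_mul_of_nonneg_right (hGle ξ) (norm_nonneg _)).trans ?_
      have e : t / 2 * ‖F ξ‖ ^ 2 + (2 * t)⁻¹ * (ν ‖ξ‖ ^ 2 * ‖v ξ‖ ^ 2) - ν ‖ξ‖ * ‖F ξ‖ * ‖v ξ‖ =
          (2 * t)⁻¹ * (t * ‖F ξ‖ - ν ‖ξ‖ * ‖v ξ‖) ^ 2 := by
        field_simp
        ring
      have : 0 ≤ (2 * t)⁻¹ * (t * ‖F ξ‖ - ν ‖ξ‖ * ‖v ξ‖) ^ 2 := by positivity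
      linarith
    rw [integral_add (hF2.const_mul _) (hJ.const_mul _), integral_const_mul, integral_const_mul,
      Complex.norm_real, Real.norm_of_nonneg hI0] at h1
    have h2 : (2 * t)⁻¹ * ∫ ξ : E2, ν ‖ξ‖ ^ 2 * ‖v ξ‖ ^ 2 ≤ 2⁻¹ * ∫ x, ‖u x‖ ^ 2 * w x := by
      refine (mul_le_mul_of_nonneg_left (hd.trans (mul_le_mul_of_nonneg_right ht.le hI0))
        (by positivity)).trans (le_of_eq ?_)
      field_simp
    linarith
  have goal : ∫ x, ‖u x‖ ^ 2 * w x ≤ W * ∫ ξ, ‖F ξ‖ ^ 2 := by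
    refine le_of_forall_pos_le_add fun ε hε => ?_
    have h1 := key (W + ε / ((∫ ξ, ‖F ξ‖ ^ 2) + 1)) (by
      have : 0 < ε / ((∫ ξ, ‖F ξ‖ ^ 2) + 1) := by positivity
      linarith)
    have h2 : ε / ((∫ ξ, ‖F ξ‖ ^ 2) + 1) * ∫ ξ, ‖F ξ‖ ^ 2 ≤ ε := by
      rw [div_mul_eq_mul_div, div_le_iff₀ (by positivity)]
      nlinarith
    linarith [add_mul W (ε / ((∫ ξ, ‖F ξ‖ ^ 2) + 1)) (∫ ξ, ‖F ξ‖ ^ 2)]
  rw [hu] at goal
  exact goal

end Pool.Agent.Lib.MP_8ec070_an.LH
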