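import Pool.Agent.Lib.MP_8ec070_an.LH.Basic

set_option autoImplicit false

open MeasureTheory Set Filter Topology Metric
open scoped ENNReal NNReal Real FourierTransform SchwartzMap

namespace Pool.Agent.Lib.MP_8ec070_an.LH

theorem local_norm {ε : ℝ} (hε : 0 < ε) (Ψ : E2 → ℂ) (ξ η : E2) :
    ‖(mm ε ξ : ℂ) * Ψ η‖ ≤ ‖Ψ η‖ := by
  rw [norm_mul, Complex.norm_real, Real.norm_of_nonneg (mm_nonneg ε ξ)]
  exact mul_le_of_le_one_left (norm_nonneg _) (mm_le_one hε ξ)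

theorem local_cont {ε : ℝ} (hε : 0 < ε) : Continuous fun ξ : E2 => (mm ε ξ : ℂ) :=
  Complex.continuous_ofReal.comp (continuous_mm hε)

theorem local_int {ε : ℝ} (hε : 0 < ε) : Integrable fun ξ : E2 => (mm ε ξ : ℂ) := by
  refine (local_cont hε).integrable_of_hasCompactSupport
    (HasCompactSupport.intro (isCompact_closedBall (0 : E2) 1) fun x hx => ?_)
  rw [mem_closedBall_zero_iff, not_le] at hx
  rw [mm_out hε hx.le, Complex.ofReal_zero]

theorem local_prod {ε : ℝ} (hε : 0 < ε) {Ψ : E2 → ℂ} (hΨ : Ker Ψ) (R : ℝ) :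
    Integrable (fun p : E2 × E2 => (mm ε (p.1 - R⁻¹ • p.2) : ℂ) * Ψ p.2)
      ((volume : Measure E2).prod volume) := by
  have hc : Continuous fun p : E2 × E2 => (mm ε (p.1 - R⁻¹ • p.2) : ℂ) * Ψ p.2 :=
    ((local_cont hε).comp (by fun_prop)).mul (hΨ.cont.comp continuous_snd)
  refine (integrable_prod_iff' hc.aestronglyMeasurable).2 ⟨Eventually.of_forall fun η => ?_, ?_⟩
  · exact ((local_int hε).comp_sub_right (R⁻¹ • η)).mul_const (Ψ η)
  · have e : (fun η : E2 => ∫ ξ : E2, ‖(mm ε (ξ - R⁻¹ • η) : ℂ) * Ψ η‖) =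
        fun η => (∫ ξ : E2, ‖(mm ε ξ : ℂ)‖) * ‖Ψ η‖ := by
      funext η
      simp only [norm_mul]
      rw [integral_mul_const, integral_sub_right_eq_self (fun ξ : E2 => ‖(mm ε ξ : ℂ)‖)]
    rw [e]
    exact hΨ.int.norm.const_mul _

theorem local_bdd {F : E2 × E2 → ℂ} (hF : Integrable F ((volume : Measure E2).prod volume))
    {a : E2 × E2 → ℝ} (ha : Continuous a) :
    Integrable (fun p => F p * ex (a p)) ((volume : Measure E2).prod volume) :=
  hF.mul_bdd (c := 1) (continuous_ex.comp ha).aestronglyMeasurable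
    (Eventually.of_forall fun _ => (norm_ex _).le)

theorem continuous_mR {ε : ℝ} (hε : 0 < ε) {Ψ : E2 → ℂ} (hΨ : Ker Ψ) (R : ℝ) :
    Continuous (mR ε Ψ R) := by
  refine continuous_of_dominated (bound := fun η => ‖Ψ η‖) (fun ξ => ?_)
    (fun ξ => Eventually.of_forall fun η => local_norm hε Ψ _ η) hΨ.int.norm
    (Eventually.of_forall fun η => ?_)
  · exact (((local_cont hε).comp (by fun_prop)).mul hΨ.cont).aestronglyMeasurable
  · exact ((local_cont hε).comp (by fun_prop)).mul continuous_const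

theorem norm_mR_le {ε : ℝ} (hε : 0 < ε) {Ψ : E2 → ℂ} (hΨ : Ker Ψ) (R : ℝ) (ξ : E2) :
    ‖mR ε Ψ R ξ‖ ≤ ∫ η, ‖Ψ η‖ := by
  exact norm_integral_le_of_norm_le hΨ.int.norm
    (Eventually.of_forall fun η => local_norm hε Ψ _ η)

theorem integrable_mR {ε : ℝ} (hε : 0 < ε) {Ψ : E2 → ℂ} (hΨ : Ker Ψ) (R : ℝ) :
    Integrable (mR ε Ψ R) := by
  exact (local_prod hε hΨ R).integral_prod_left

/-- The kernel of the mollified multiplier vanishes outside the ball of radius `R`. -/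
theorem ker_mR {ε : ℝ} (hε : 0 < ε) {Ψ : E2 → ℂ} (hΨ : Ker Ψ) {R : ℝ} (hR : 0 < R) {z : E2}
    (hz : R ≤ ‖z‖) : ∫ ξ, mR ε Ψ R ξ * ex (@inner ℝ _ _ z ξ) = 0 := by
  have h1 := local_bdd (local_prod hε hΨ R) (a := fun p => @inner ℝ _ _ z p.1) (by fun_prop)
  have h2 := integral_integral_swap
    (f := fun ξ η : E2 => (mm ε (ξ - R⁻¹ • η) : ℂ) * Ψ η * ex (@inner ℝ _ _ z ξ)) h1
  have h3 : ∀ η : E2, ∫ ξ : E2, (mm ε (ξ - R⁻¹ • η) : ℂ) * Ψ η * ex (@inner ℝ _ _ z ξ) =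
      (∫ ξ : E2, (mm ε ξ : ℂ) * ex (@inner ℝ _ _ z ξ)) *
        (Ψ η * ex (@inner ℝ _ _ (R⁻¹ • z) η)) := fun η => by
    rw [← integral_add_right_eq_self _ (R⁻¹ • η), ← integral_mul_const]
    congr 1
    funext ξ
    rw [add_sub_cancel_right, inner_add_right, ex_add, real_inner_smul_left,
      real_inner_smul_right]
    ring
  have h4 : 1 ≤ ‖R⁻¹ • z‖ := by
    rw [norm_smul, norm_inv, Real.norm_of_nonneg hR.le, ← div_eq_inv_mul, le_div_iff₀ hR, one_mul]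
    exact hz
  simp only [mR, ← integral_mul_const]
  rw [h2]
  simp only [h3]
  rw [integral_const_mul, hΨ.supp _ h4, mul_zero]

theorem loc_mR {ε : ℝ} (hε : 0 < ε) {Ψ : E2 → ℂ} (hΨ : Ker Ψ) {R : ℝ} (hR : 0 < R) :
    Loc (mR ε Ψ R) R := by
  intro g x hg
  have h1 := local_bdd ((integrable_mR hε hΨ R).mul_prod g.integrable)
    (a := fun p => @inner ℝ _ _ (x - p.2) p.1) (by fun_prop)
  have h2 := integral_integral_swap
    (f := fun ξ y : E2 => mR ε Ψ R ξ * g y * ex (@inner ℝ _ _ (x - y) ξ)) h1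
  have h3 : ∀ ξ : E2, mR ε Ψ R ξ * (FT g ξ * ex (@inner ℝ _ _ x ξ)) =
      ∫ y : E2, mR ε Ψ R ξ * g y * ex (@inner ℝ _ _ (x - y) ξ) := fun ξ => by
    rw [FT_eq_ex, ← integral_mul_const, ← integral_const_mul]
    congr 1
    funext y
    rw [inner_sub_left, sub_eq_add_neg, ex_add]
    ring
  have h4 : ∀ y : E2, ∫ ξ : E2, mR ε Ψ R ξ * g y * ex (@inner ℝ _ _ (x - y) ξ) = 0 := fun y => by
    by_cases hy : y ∈ ball x R
    · simp [hg y hy]
    · rw [mem_ball', dist_eq_norm, not_lt] at hy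
      simp only [mul_right_comm _ (g y)]
      rw [integral_mul_const, ker_mR hε hΨ hR hy, zero_mul]
  unfold TT
  simp only [h3]
  rw [h2]
  simp only [h4, integral_zero]

end Pool.Agent.Lib.MP_8ec070_an.LH
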