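import Pool.Agent.Lib.MP_8ec070_an.LH.Defs

set_option autoImplicit false

open MeasureTheory Set Filter Topology Metric
open scoped ENNReal NNReal Real FourierTransform SchwartzMap

namespace Pool.Agent.Lib.MP_8ec070_an.LH

/-- The one-dimensional integrals of the majorant. -/
theorem nu_int {e : ℝ} (h0 : 0 < e) (h1 : e ≤ 3 / 4) : ∃ C : ℝ, 0 < C ∧ ∀ R : ℝ, 1 ≤ R →
    IntegrableOn (fun s => nu e R s ^ 2 * (1 + s)) (Ioi 0) ∧
      ∫ s in Ioi (0 : ℝ), nu e R s ^ 2 * (1 + s) ≤ C * R ^ (-1 - 2 * e) := by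
  have hg : Integrable (fun t : ℝ => (1 + ‖t‖) ^ (-(3 - 2 * e))) :=
    integrable_one_add_norm (by rw [Module.finrank_self]; push_cast; linarith)
  have hI : 0 ≤ ∫ t : ℝ, (1 + ‖t‖) ^ (-(3 - 2 * e)) := integral_nonneg fun t => by positivity
  refine ⟨2 * (∫ t : ℝ, (1 + ‖t‖) ^ (-(3 - 2 * e))) + 1, by linarith, fun R hR => ?_⟩
  have hR0 : 0 < R := by linarith
  have hg1 : Integrable (fun s : ℝ => (1 + ‖R * (1 - s)‖) ^ (-(3 - 2 * e))) :=
    (hg.comp_mul_left' hR0.ne').comp_sub_left 1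
  have hI1 : ∫ s : ℝ, (1 + ‖R * (1 - s)‖) ^ (-(3 - 2 * e)) =
      R⁻¹ * ∫ t : ℝ, (1 + ‖t‖) ^ (-(3 - 2 * e)) := by
    rw [integral_sub_left_eq_self (fun s : ℝ => (1 + ‖R * s‖) ^ (-(3 - 2 * e))) volume 1,
      Measure.integral_comp_mul_left (fun t : ℝ => (1 + ‖t‖) ^ (-(3 - 2 * e))) R,
      abs_of_pos (inv_pos.2 hR0), smul_eq_mul]
  have hle : ∀ s ∈ Ioi (0 : ℝ), nu e R s ^ 2 * (1 + s) ≤
      2 * R ^ (-2 * e) * (1 + ‖R * (1 - s)‖) ^ (-(3 - 2 * e)) := by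
    intro s hs
    have ha := abs_nonneg (1 - s)
    have hb : 0 < 1 + R * |1 - s| := by positivity
    have h2 : 1 + s ≤ 2 * (1 + R * |1 - s|) := by
      have := neg_abs_le (1 - s)
      nlinarith
    have h3 : nu e R s ^ 2 * (1 + R * |1 - s|) =
        R ^ (-2 * e) * (1 + R * |1 - s|) ^ (-(3 - 2 * e)) := by
      unfold nu
      rw [mul_pow, sq, sq, ← Real.rpow_add hR0, ← Real.rpow_add hb, mul_assoc,
        ← Real.rpow_add_one hb.ne']
      congr 2 <;> ring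
    rw [norm_mul, Real.norm_eq_abs, Real.norm_eq_abs, abs_of_pos hR0]
    have h4 := mul_le_mul_of_nonneg_left h2 (sq_nonneg (nu e R s))
    nlinarith
  have hnn : ∀ s ∈ Ioi (0 : ℝ), 0 ≤ nu e R s ^ 2 * (1 + s) := fun s hs => by
    have : (0 : ℝ) < s := hs
    positivity
  have hint : IntegrableOn (fun s => nu e R s ^ 2 * (1 + s)) (Ioi 0) := by
    refine Integrable.mono' (hg1.const_mul (2 * R ^ (-2 * e))).integrableOn
      ((((continuous_nu e hR0.le).pow 2).mul (by fun_prop)).aestronglyMeasurable) ?_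
    filter_upwards [ae_restrict_mem measurableSet_Ioi] with s hs
    rw [Real.norm_of_nonneg (hnn s hs)]
    exact hle s hs
  refine ⟨hint, ?_⟩
  have h5 := setIntegral_mono_on hint (hg1.const_mul (2 * R ^ (-2 * e))).integrableOn
    measurableSet_Ioi hle
  have h6 := setIntegral_le_integral (s := Ioi (0 : ℝ)) (hg1.const_mul (2 * R ^ (-2 * e)))
    (Eventually.of_forall fun s => by positivity)
  rw [integral_const_mul (μ := volume), hI1] at h6
  have h7 : R ^ (-1 - 2 * e) = R ^ (-2 * e) * R⁻¹ := by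
    rw [← Real.rpow_neg_one, ← Real.rpow_add hR0]
    congr 1
    ring
  have h8 : 0 ≤ R ^ (-2 * e) * R⁻¹ := by positivity
  rw [h7]
  nlinarith

theorem nu_half {e : ℝ} (h0 : 0 < e) (h1 : e ≤ 1) {R : ℝ} (hR : 0 < R) (s : ℝ) :
    nu e R s ≤ 4 * nu e (2 * R) s := by
  unfold nu
  have ha := abs_nonneg (1 - s)
  have hb : 0 < 1 + R * |1 - s| := by positivity
  have h2 : (2 * (1 + R * |1 - s|)) ^ (e - 2) ≤ (1 + 2 * R * |1 - s|) ^ (e - 2) :=
    Real.rpow_le_rpow_of_nonpos (by positivity) (by linarith) (by linarith)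
  rw [Real.mul_rpow (by norm_num) hb.le] at h2
  have h3 : (2 : ℝ) ^ (-e) * 2 ^ (e - 2) = 1 / 4 := by
    rw [← Real.rpow_add (by norm_num), show -e + (e - 2) = -((2 : ℕ) : ℝ) by push_cast; ring,
      Real.rpow_neg (by norm_num), Real.rpow_natCast]
    norm_num
  rw [Real.mul_rpow (by norm_num) hR.le]
  have h4 : 0 ≤ (2 : ℝ) ^ (-e) * R ^ (-e) := by positivity
  have h5 := mul_le_mul_of_nonneg_left h2 h4
  have h6 : (2 : ℝ) ^ (-e) * R ^ (-e) * (2 ^ (e - 2) * (1 + R * |1 - s|) ^ (e - 2)) =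
      (2 ^ (-e) * 2 ^ (e - 2)) * (R ^ (-e) * (1 + R * |1 - s|) ^ (e - 2)) := by ring
  rw [h6, h3] at h5
  linarith

theorem mm_le_nu {e ε : ℝ} (h0 : 0 < e) (hε : 0 < ε) (ξ : E2) : mm ε ξ ≤ 4 * nu e 1 ‖ξ‖ := by
  rcases le_total 1 ‖ξ‖ with h | h
  · rw [mm_out hε h]
    have := nu_nonneg e zero_le_one ‖ξ‖
    linarith
  · refine (mm_le_one hε ξ).trans ?_
    unfold nu
    have hn := norm_nonneg ξ
    rw [Real.one_rpow, one_mul, one_mul, abs_of_nonneg (by linarith)]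
    have h1 : (1 + (1 - ‖ξ‖)) ^ (-((2 : ℕ) : ℝ)) ≤ (1 + (1 - ‖ξ‖)) ^ (e - 2) :=
      Real.rpow_le_rpow_of_exponent_le (by linarith) (by push_cast; linarith)
    have h2 : (2 : ℝ) ^ (-((2 : ℕ) : ℝ)) ≤ (1 + (1 - ‖ξ‖)) ^ (-((2 : ℕ) : ℝ)) :=
      Real.rpow_le_rpow_of_nonpos (by linarith) (by linarith) (by norm_num)
    rw [Real.rpow_neg (show (0 : ℝ) ≤ 2 by norm_num), Real.rpow_natCast] at h2
    have h3 := h2.trans h1
    norm_num at h3 ⊢
    linarith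

end Pool.Agent.Lib.MP_8ec070_an.LH
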