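import Pool.Agent.Lib.MP_8ec070_an.LH.Local
import Pool.Agent.Lib.MP_8ec070_an.LH.Diff
import Pool.Agent.Lib.MP_8ec070_an.LH.Nu

set_option autoImplicit false

open MeasureTheory Set Filter Topology Metric
open scoped ENNReal NNReal Real FourierTransform SchwartzMap

namespace Pool.Agent.Lib.MP_8ec070_an.LH

theorem pieces_int {ε : ℝ} (hε : 0 < ε) {Ψ : E2 → ℂ} (hΨ : Ker Ψ) {g : E2 → E2}
    (hg : Continuous g) : Integrable fun η => (mm ε (g η) : ℂ) * Ψ η :=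
  hΨ.int.bdd_mul (c := 1)
    (Complex.continuous_ofReal.comp ((continuous_mm hε).comp hg)).aestronglyMeasurable
    (Eventually.of_forall fun η => by
      rw [Complex.norm_real, Real.norm_of_nonneg (mm_nonneg _ _)]
      exact mm_le_one hε _)

theorem mR_close {e ε : ℝ} (h0 : 0 < e) (h1 : e ≤ 1) (hε : e ≤ ε) {Ψ : E2 → ℂ} (hΨ : Ker Ψ) :
    ∃ C : ℝ, 0 < C ∧ ∀ R : ℝ, 1 ≤ R → ∀ ξ, ‖mR ε Ψ R ξ - mm ε ξ‖ ≤ C * nu e R ‖ξ‖ := by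
  obtain ⟨C, hC, H⟩ := second_nu h0 h1 hε
  have hε0 : 0 < ε := h0.trans_le hε
  have hI : 0 ≤ ∫ η, (1 + ‖η‖ ^ 2) * ‖Ψ η‖ := integral_nonneg fun η => by positivity
  refine ⟨C * ((∫ η, (1 + ‖η‖ ^ 2) * ‖Ψ η‖) + 1), by positivity, fun R hR ξ => ?_⟩
  have hn := nu_nonneg e (zero_le_one.trans hR) ‖ξ‖
  have i1 := pieces_int hε0 hΨ (g := fun η => ξ + R⁻¹ • η) (by fun_prop)
  have i2 := pieces_int hε0 hΨ (g := fun η => ξ - R⁻¹ • η) (by fun_prop)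
  have e1 : ∫ η, (mm ε (ξ + R⁻¹ • η) : ℂ) * Ψ η = mR ε Ψ R ξ := by
    rw [← integral_neg_eq_self, mR]
    simp only [hΨ.even, smul_neg, ← sub_eq_add_neg]
  have e2 : ∫ η, ((mm ε (ξ + R⁻¹ • η) + mm ε (ξ - R⁻¹ • η) - 2 * mm ε ξ : ℝ) : ℂ) * Ψ η =
      2 * (mR ε Ψ R ξ - mm ε ξ) := by
    have e3 : (fun η => ((mm ε (ξ + R⁻¹ • η) + mm ε (ξ - R⁻¹ • η) - 2 * mm ε ξ : ℝ) : ℂ) * Ψ η) =
        fun η => ((mm ε (ξ + R⁻¹ • η) : ℂ) * Ψ η + (mm ε (ξ - R⁻¹ • η) : ℂ) * Ψ η) -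
          (2 * mm ε ξ : ℂ) * Ψ η := by
      funext η
      push_cast
      ring
    have i3 : Integrable fun η =>
      (mm ε (ξ + R⁻¹ • η) : ℂ) * Ψ η + (mm ε (ξ - R⁻¹ • η) : ℂ) * Ψ η := i1.add i2
    rw [e3, integral_sub i3 (hΨ.int.const_mul _), integral_add i1 i2, integral_const_mul,
      hΨ.one, e1]
    change mR ε Ψ R ξ + mR ε Ψ R ξ - _ = _
    ring
  have e4 : ‖2 * (mR ε Ψ R ξ - mm ε ξ)‖ ≤ ∫ η, C * nu e R ‖ξ‖ * ((1 + ‖η‖ ^ 2) * ‖Ψ η‖) := by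
    rw [← e2]
    refine norm_integral_le_of_norm_le (hΨ.mom.const_mul _) (Eventually.of_forall fun η => ?_)
    rw [norm_mul, Complex.norm_real, Real.norm_eq_abs]
    calc _ ≤ C * (1 + ‖η‖ ^ 2) * nu e R ‖ξ‖ * ‖Ψ η‖ :=
          mul_le_mul_of_nonneg_right (H R hR ξ η) (norm_nonneg _)
      _ = _ := by ring
  rw [integral_const_mul, norm_mul, Complex.norm_two] at e4
  have e5 := norm_nonneg (mR ε Ψ R ξ - mm ε ξ)
  have e6 := mul_nonneg hC.le hn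
  nlinarith

theorem continuous_pc {ε : ℝ} (hε : 0 < ε) {Ψ : E2 → ℂ} (hΨ : Ker Ψ) (j : ℕ) :
    Continuous (pc ε Ψ j) := by
  cases j with
  | zero => exact continuous_mR hε hΨ 1
  | succ j => exact (continuous_mR hε hΨ _).sub (continuous_mR hε hΨ _)

theorem pc_le {e ε : ℝ} (h0 : 0 < e) (h1 : e ≤ 1) (hε : e ≤ ε) {Ψ : E2 → ℂ} (hΨ : Ker Ψ) :
    ∃ C : ℝ, 0 < C ∧ ∀ (j : ℕ) (ξ : E2), ‖pc ε Ψ j ξ‖ ≤ C * nu e (2 ^ j) ‖ξ‖ := by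
  obtain ⟨C, hC, H⟩ := mR_close h0 h1 hε hΨ
  refine ⟨5 * C + 4, by positivity, fun j ξ => ?_⟩
  cases j with
  | zero =>
    have a1 := H 1 le_rfl ξ
    have a2 := mm_le_nu h0 (h0.trans_le hε) ξ
    have a3 := norm_le_norm_add_norm_sub' (mR ε Ψ 1 ξ) (mm ε ξ)
    have a4 := mul_nonneg hC.le (nu_nonneg e zero_le_one ‖ξ‖)
    rw [Complex.norm_real, Real.norm_of_nonneg (mm_nonneg _ _)] at a3
    rw [pow_zero]
    change ‖mR ε Ψ 1 ξ‖ ≤ _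
    nlinarith
  | succ j =>
    have a1 := H (2 ^ (j + 1)) (one_le_pow₀ one_le_two) ξ
    have a2 := H (2 ^ j) (one_le_pow₀ one_le_two) ξ
    have a3 := nu_half h0 h1 (pow_pos two_pos j) ‖ξ‖
    have a4 := nu_nonneg e (pow_pos two_pos (j + 1)).le ‖ξ‖
    have a5 := norm_sub_le (mR ε Ψ (2 ^ (j + 1)) ξ - mm ε ξ) (mR ε Ψ (2 ^ j) ξ - mm ε ξ)
    rw [← pow_succ'] at a3
    rw [sub_sub_sub_cancel_right] at a5
    change ‖mR ε Ψ (2 ^ (j + 1)) ξ - mR ε Ψ (2 ^ j) ξ‖ ≤ _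
    have a6 := mul_le_mul_of_nonneg_left a3 hC.le
    nlinarith

theorem pieces_TT {ε : ℝ} (hε : 0 < ε) {Ψ : E2 → ℂ} (hΨ : Ker Ψ) (j : ℕ) (f : 𝓢(E2, ℂ)) (x : E2) :
    TT (pc ε Ψ (j + 1)) f x = TT (mR ε Ψ (2 ^ (j + 1))) f x - TT (mR ε Ψ (2 ^ j)) f x :=
  TT_sub_mul (continuous_mR hε hΨ _) (continuous_mR hε hΨ _) (norm_mR_le hε hΨ _)
    (norm_mR_le hε hΨ _) f x

theorem loc_pc {ε : ℝ} (hε : 0 < ε) {Ψ : E2 → ℂ} (hΨ : Ker Ψ) (j : ℕ) :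
    Loc (pc ε Ψ j) (2 ^ j) := by
  cases j with
  | zero =>
    rw [pow_zero]
    exact loc_mR hε hΨ one_pos
  | succ j =>
    intro g x hg
    rw [pieces_TT hε hΨ, loc_mR hε hΨ (pow_pos two_pos _) g x hg,
      loc_mR hε hΨ (pow_pos two_pos _) g x fun y hy =>
        hg y (ball_subset_ball (pow_le_pow_right₀ one_le_two j.le_succ) hy), sub_zero]

theorem tendsto_pc {ε : ℝ} (hε : 0 < ε) {Ψ : E2 → ℂ} (hΨ : Ker Ψ) (f : 𝓢(E2, ℂ)) (x : E2) :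
    Tendsto (fun J => ∑ j ∈ Finset.range J, TT (pc ε Ψ j) f x) atTop
      (𝓝 (TT (fun ξ => (mm ε ξ : ℂ)) f x)) := by
  have he : 0 < min ε 1 := lt_min hε one_pos
  obtain ⟨C, hC, H⟩ := mR_close he (min_le_right _ _) (min_le_left _ _) hΨ
  have h1 : ∀ J : ℕ, ∑ j ∈ Finset.range (J + 1), TT (pc ε Ψ j) f x = TT (mR ε Ψ (2 ^ J)) f x := by
    intro J
    induction J with
    | zero =>
      rw [Finset.sum_range_one, pow_zero]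
      rfl
    | succ J ih =>
      rw [Finset.sum_range_succ, ih, pieces_TT hε hΨ]
      ring
  rw [← tendsto_add_atTop_iff_nat 1]
  simp only [h1]
  rw [tendsto_iff_norm_sub_tendsto_zero]
  have h2 : Tendsto (fun J : ℕ => C * ((2 : ℝ) ^ J) ^ (-min ε 1) * ∫ ξ, ‖FT f ξ‖) atTop
      (𝓝 (C * 0 * ∫ ξ, ‖FT f ξ‖)) :=
    (((tendsto_rpow_neg_atTop he).comp
      (tendsto_pow_atTop_atTop_of_one_lt one_lt_two)).const_mul C).mul_const _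
  rw [mul_zero, zero_mul] at h2
  refine squeeze_zero (fun J => norm_nonneg _) (fun J => ?_) h2
  rw [← TT_sub_mul (μ' := fun ξ => (mm ε ξ : ℂ)) (B' := 1) (continuous_mR hε hΨ _)
    (Complex.continuous_ofReal.comp (continuous_mm hε)) (norm_mR_le hε hΨ _) fun ξ => by
      rw [Complex.norm_real, Real.norm_of_nonneg (mm_nonneg _ _)]
      exact mm_le_one hε _]
  exact norm_TT_le (fun ξ => (H _ (one_le_pow₀ one_le_two) ξ).trans (mul_le_mul_of_nonneg_left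
    (nu_le ((min_le_right _ _).trans one_le_two) (by positivity) _) hC.le)) f x

end Pool.Agent.Lib.MP_8ec070_an.LH
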