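import Pool.Agent.Lib.MP_8ec070_an.LH.Defs

set_option autoImplicit false

open MeasureTheory Set Filter Topology Metric
open scoped ENNReal NNReal Real FourierTransform SchwartzMap

namespace Pool.Agent.Lib.MP_8ec070_an.LH

open Real in
theorem ker_fin {δ : ℝ} (hδ : 0 < δ) : ∫⁻ θ in Set.Ioo (-π) π,
    ENNReal.ofReal (δ * ‖Complex.exp (Complex.I * θ) - 1‖ ^ (δ - 1)) < ⊤ := by
  have h1 : IntegrableOn (fun θ : ℝ => δ * ‖Complex.exp (Complex.I * θ) - 1‖ ^ (δ - 1))
      (Metric.ball 0 π) := by
    refine integrableOn_ball_of_norm_le_rpow (C := δ * max 1 ((2 / π) ^ (δ - 1))) (α := 1 - δ)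
      (by simp) (by simpa using hδ) ?_ (Measurable.aestronglyMeasurable (by fun_prop))
    filter_upwards [ae_restrict_mem measurableSet_ball,
      ae_restrict_of_ae (Measure.ae_ne volume (0 : ℝ))] with θ h h0
    rw [neg_sub, norm_of_nonneg (by positivity), mul_assoc]
    refine mul_le_mul_of_nonneg_left ?_ hδ.le
    rcases le_total 1 δ with h1 | h1
    · exact (rpow_le_rpow (norm_nonneg _) norm_exp_I_mul_ofReal_sub_one_le (by linarith)).trans
        (le_mul_of_one_le_left (by positivity) (le_max_left _ _))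
    · have h2 : 2 / π * ‖θ‖ ≤ ‖Complex.exp (Complex.I * θ) - 1‖ := by
        rw [mem_ball_zero_iff, norm_eq_abs] at h
        have := mul_abs_le_abs_sin (x := θ / 2) (by rw [abs_div, abs_two]; linarith)
        rw [Complex.norm_exp_I_mul_ofReal_sub_one, norm_mul, norm_eq_abs, norm_eq_abs, norm_eq_abs,
          abs_two]
        rw [abs_div, abs_two] at this
        linarith
      refine (rpow_le_rpow_of_nonpos (by positivity) h2 (by linarith)).trans ?_
      rw [mul_rpow (by positivity) (norm_nonneg _)]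
      exact mul_le_mul_of_nonneg_right (le_max_right _ _) (by positivity)
  rw [Real.ball_eq_Ioo, zero_sub, zero_add] at h1
  exact h1.lintegral_lt_top

open Real in
/-- The maximal function with the rotated kernel is bounded by the ray maximal function. -/
theorem MD_le {δ : ℝ} (hδ : 0 < δ) : ∃ K : ℝ≥0, ∀ (φ : E2 → ℝ) (x : E2), (∀ x, 0 ≤ φ x) →
    MD δ φ x ≤ K * MM φ x := by
  unfold MD MM
  refine ⟨(∫⁻ θ in Set.Ioo (-π) π, ENNReal.ofReal
    (δ * ‖Complex.exp (Complex.I * θ) - 1‖ ^ (δ - 1))).toNNReal, fun φ x hφ => ?_⟩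
  rw [ENNReal.coe_toNNReal (ker_fin hδ).ne]
  refine iSup₂_le fun u hu => iSup₂_le fun r hr => ?_
  let e₀ := Complex.orthonormalBasisOneI.repr
  let e := (rotation ⟨e₀.symm u, by simpa [Submonoid.unitSphere] using hu⟩).trans e₀
  have he : e 1 = u := by
    change e₀ (e₀.symm u * 1) = u
    rw [mul_one, e₀.apply_symm_apply]
  rw [← lintegral_indicator measurableSet_closedBall, ← e.measurePreserving.lintegral_comp_emb
    e.toHomeomorph.measurableEmbedding, ← Complex.lintegral_comp_polarCoord_symm]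
  change _ * ∫⁻ p in Set.Ioi (0 : ℝ) ×ˢ Set.Ioo (-π) π, _ ∂(volume.prod volume) ≤ _
  rw [← Measure.prod_restrict, ← lintegral_prod_swap, ← lintegral_mul_const _ (by fun_prop)]
  refine (mul_le_mul_right (lintegral_prod_le _) _).trans ?_
  rw [← lintegral_const_mul' _ _ ENNReal.ofReal_ne_top]
  refine lintegral_mono fun θ => ?_
  have h1 : ‖e (Complex.exp (Complex.I * θ))‖ = 1 := by
    rw [e.norm_map, Complex.norm_exp_I_mul_ofReal]
  refine le_trans ?_ (mul_le_mul_right (le_iSup₂_of_le (e (Complex.exp (Complex.I * θ))) h1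
    (le_iSup₂_of_le r hr le_rfl)) _)
  rw [mul_left_comm, ← lintegral_const_mul' (ENNReal.ofReal (δ * _)) _ ENNReal.ofReal_ne_top]
  refine mul_le_mul' (ENNReal.ofReal_le_ofReal (by gcongr; norm_num)) ?_
  rw [← Set.Ioi_inter_Iic, Set.inter_comm, ← Measure.restrict_restrict measurableSet_Iic,
    ← lintegral_indicator measurableSet_Iic]
  refine setLIntegral_mono_ae' measurableSet_Ioi (.of_forall fun s (hs : 0 < s) => le_of_eq ?_)
  have h2 : e (Complex.polarCoord.symm (s, θ)) = s • e (Complex.exp (Complex.I * θ)) := by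
    rw [← map_smul, Complex.polarCoord_symm_apply, mul_comm Complex.I, Complex.exp_mul_I,
      Complex.real_smul, Complex.ofReal_cos, Complex.ofReal_sin]
  have h3 : ‖s • e (Complex.exp (Complex.I * θ))‖ = s := by
    rw [norm_smul, h1, mul_one, norm_of_nonneg hs.le]
  simp only [Prod.swap_prod_mk, h2, Set.indicator, mem_closedBall_zero_iff, h3, Set.mem_Iic]
  split_ifs
  · rw [smul_smul, inv_mul_cancel₀ hs.ne', one_smul, ← he, ← map_sub, e.norm_map, smul_eq_mul,
      ← ENNReal.ofReal_mul hs.le, ← ENNReal.ofReal_mul (by positivity)]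
    congr 1
    ring
  · simp

end Pool.Agent.Lib.MP_8ec070_an.LH
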