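import Pool.Agent.Lib.MP_8ec070_an.LH.Piece
import Pool.Agent.Lib.MP_8ec070_an.LH.Pieces
import Pool.Agent.Lib.MP_8ec070_an.LH.Ball
import Pool.Agent.Lib.MP_8ec070_an.LH.Ray

set_option autoImplicit false

open MeasureTheory Set Filter Topology Metric
open scoped ENNReal NNReal Real FourierTransform SchwartzMap

namespace Pool.Agent.Lib.MP_8ec070_an.LH

/-- The inequality with the ball maximal function. -/
theorem main_GG {ε α : ℝ} (h0 : 1 / 2 < α) (h1 : α ≤ 1) (hε : α < 2 * ε) : ∃ A : ℝ≥0,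
    ∀ (f : 𝓢(E2, ℂ)) (φ : E2 → ℝ), (∀ x, 0 ≤ φ x) → LocallyIntegrable φ volume →
      ∫⁻ x, ENNReal.ofReal (‖TT (fun ξ => (mm ε ξ : ℂ)) f x‖ ^ 2 * φ x) ≤
        A * ∫⁻ x, ENNReal.ofReal (‖f x‖ ^ 2) * GG α φ x := by
  set e := min ε (3 / 4) with he
  have hε0 : 0 < ε := by linarith
  have he0 : 0 < e := lt_min hε0 (by norm_num)
  have he1 : e ≤ 3 / 4 := min_le_right _ _
  have heε : e ≤ ε := min_le_left _ _
  have hαe : α < 2 * e := by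
    rcases le_total ε (3 / 4) with h | h
    · rw [he, min_eq_left h]; exact hε
    · rw [he, min_eq_right h]; linarith
  obtain ⟨Ψ, hΨ⟩ := exists_ker
  obtain ⟨B, hB, hpc⟩ := pc_le he0 (by linarith) heε hΨ
  obtain ⟨C, hC⟩ := piece he0 he1 h0 h1 hB
  set q : ℝ := (2 : ℝ) ^ ((α - 2 * e) / 2) with hq
  have hq0 : 0 < q := Real.rpow_pos_of_pos two_pos _
  have hq1 : q < 1 := Real.rpow_lt_one_of_one_lt_of_neg one_lt_two (by linarith)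
  refine ⟨(((1 - q) ^ 2)⁻¹).toNNReal * C, fun f φ hφ0 hφ => ?_⟩
  have hb : ∀ (j : ℕ) (ξ : E2), ‖pc ε Ψ j ξ‖ ≤ B * (2 ^ j : ℝ) ^ (-e) := fun j ξ =>
    (hpc j ξ).trans (mul_le_mul_of_nonneg_left (nu_le (by linarith) (by positivity) _) hB.le)
  have key := sum_pieces (a := fun j => TT (pc ε Ψ j) f)
    (fun j => continuous_TT (continuous_pc hε0 hΨ j) (hb j) f) (tendsto_pc hε0 hΨ f) hφ0
    hφ.aestronglyMeasurable.aemeasurable hq0 hq1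
    (I := C * ∫⁻ x, ENNReal.ofReal (‖f x‖ ^ 2) * GG α φ x) fun j => by
      have e1 : q ^ (2 * j) = ((2 : ℝ) ^ j) ^ (α - 2 * e) := by
        rw [hq, ← Real.rpow_natCast, ← Real.rpow_mul two_pos.le, ← Real.rpow_natCast,
          ← Real.rpow_mul two_pos.le]
        congr 1
        push_cast
        ring
      rw [e1]
      exact hC _ (one_le_pow₀ one_le_two) _ (continuous_pc hε0 hΨ j) (hpc j) (loc_pc hε0 hΨ j)
        f φ hφ0 hφ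
  rw [ENNReal.coe_mul, mul_assoc]
  exact key

/-- A pointwise larger maximal function. -/
theorem main_of_le {ε α : ℝ} (h0 : 1 / 2 < α) (h1 : α ≤ 1) (hε : α < 2 * ε)
    {M : (E2 → ℝ) → E2 → ℝ≥0∞} {K : ℝ≥0}
    (hM : ∀ φ : E2 → ℝ, (∀ x, 0 ≤ φ x) → ∀ x, GG α φ x ≤ K * M φ x) : ∃ A : ℝ≥0,
    ∀ (f : 𝓢(E2, ℂ)) (φ : E2 → ℝ), (∀ x, 0 ≤ φ x) → LocallyIntegrable φ volume →
      ∫⁻ x, ENNReal.ofReal (‖TT (fun ξ => (mm ε ξ : ℂ)) f x‖ ^ 2 * φ x) ≤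
        A * ∫⁻ x, ENNReal.ofReal (‖f x‖ ^ 2) * M φ x := by
  obtain ⟨A, hA⟩ := main_GG h0 h1 hε
  refine ⟨A * K, fun f φ k1 k2 => (hA f φ k1 k2).trans ?_⟩
  rw [ENNReal.coe_mul, mul_assoc, ← lintegral_const_mul' (K : ℝ≥0∞) _ ENNReal.coe_ne_top]
  refine mul_le_mul_right (lintegral_mono fun x => ?_) _
  rw [mul_left_comm]
  exact mul_le_mul_right (hM φ k1 x) _

theorem main_MD {ε δ : ℝ} (hε : 1 / 4 < ε) (h0 : 0 < δ) (hδ : δ < 2 * ε) : ∃ A : ℝ≥0,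
    ∀ (f : 𝓢(E2, ℂ)) (φ : E2 → ℝ), (∀ x, 0 ≤ φ x) → LocallyIntegrable φ volume →
      ∫⁻ x, ENNReal.ofReal (‖TT (fun ξ => (mm ε ξ : ℂ)) f x‖ ^ 2 * φ x) ≤
        A * ∫⁻ x, ENNReal.ofReal (‖f x‖ ^ 2) * MD δ φ x := by
  rcases le_total 1 δ with h | h
  · obtain ⟨K, hK⟩ := GG_le_large h
    exact main_of_le (α := 1) (by norm_num) le_rfl (by linarith) hK
  · have a1 : 1 / 2 < min (1 / 4 + ε) 1 := lt_min (by linarith) (by norm_num)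
    have a2 : min (1 / 4 + ε) 1 < 2 * ε := (min_le_left _ _).trans_lt (by linarith)
    obtain ⟨K, hK⟩ := GG_le_small (α := max δ (min (1 / 4 + ε) 1)) h0 (le_max_left _ _)
      (max_le h (min_le_right _ _))
    exact main_of_le (a1.trans_le (le_max_right _ _)) (max_le h (min_le_right _ _))
      (max_lt hδ a2) hK

theorem main_MM {ε : ℝ} (hε : 1 / 4 < ε) : ∃ A : ℝ≥0,
    ∀ (f : 𝓢(E2, ℂ)) (φ : E2 → ℝ), (∀ x, 0 ≤ φ x) → LocallyIntegrable φ volume →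
      ∫⁻ x, ENNReal.ofReal (‖TT (fun ξ => (mm ε ξ : ℂ)) f x‖ ^ 2 * φ x) ≤
        A * ∫⁻ x, ENNReal.ofReal (‖f x‖ ^ 2) * MM φ x := by
  obtain ⟨A, hA⟩ := main_MD (δ := 1 / 2) hε (by norm_num) (by linarith)
  obtain ⟨K, hK⟩ := MD_le (δ := 1 / 2) (by norm_num)
  refine ⟨A * K, fun f φ k1 k2 => (hA f φ k1 k2).trans ?_⟩
  rw [ENNReal.coe_mul, mul_assoc, ← lintegral_const_mul' (K : ℝ≥0∞) _ ENNReal.coe_ne_top]
  refine mul_le_mul_right (lintegral_mono fun x => ?_) _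
  rw [mul_left_comm]
  exact mul_le_mul_right (hK φ x k1) _

end Pool.Agent.Lib.MP_8ec070_an.LH
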