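import Pool.Agent.Lib.MP_8ec070_an.LH.Vdc
import Pool.Agent.Lib.MP_8ec070_an.LH.Nu

set_option autoImplicit false

open MeasureTheory Set Filter Topology Metric
open scoped ENNReal NNReal Real FourierTransform SchwartzMap

namespace Pool.Agent.Lib.MP_8ec070_an.LH

theorem rad_int {n : ℝ → ℝ} (hc : Continuous n) (h0 : ∀ s, 0 ≤ n s)
    (hi : IntegrableOn (fun s => n s * (1 + s)) (Ioi 0)) :
    IntegrableOn (fun s => n s * s) (Ioi 0) := by
  refine Integrable.mono' hi (Continuous.aestronglyMeasurable (by fun_prop)) ?_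
  filter_upwards [ae_restrict_mem measurableSet_Ioi] with s hs
  have hs' : 0 < s := hs
  rw [Real.norm_of_nonneg (mul_nonneg (h0 s) hs'.le)]
  exact mul_le_mul_of_nonneg_left (by linarith) (h0 s)

/-- Polar coordinates: integrability of a radial function. -/
theorem integrable_radial {n : ℝ → ℝ} (hc : Continuous n) (h0 : ∀ s, 0 ≤ n s)
    (hi : IntegrableOn (fun s => n s * (1 + s)) (Ioi 0)) : Integrable fun ξ : E2 => n ‖ξ‖ := by
  rw [integrable_fun_norm_addHaar volume]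
  simpa [mul_comm] using rad_int hc h0 hi

/-- Polar coordinates: the transform of a radial function. -/
theorem radial_eq {n : ℝ → ℝ} (hc : Continuous n) (h0 : ∀ s, 0 ≤ n s)
    (hi : IntegrableOn (fun s => n s * (1 + s)) (Ioi 0)) (z : E2) :
    ∫ ξ : E2, ((n ‖ξ‖ : ℝ) : ℂ) * ex (@inner ℝ _ _ z ξ) = ∫ s in Ioi (0 : ℝ), ((n s * s : ℝ) : ℂ) *
      ∫ θ in (-π)..π, Complex.exp (((2 * π * s * ‖z‖ * Real.cos θ : ℝ) : ℂ) * Complex.I) := by
  obtain ⟨u, hu, hz⟩ : ∃ u : E2, ‖u‖ = 1 ∧ z = ‖z‖ • u := by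
    by_cases h : z = 0
    · exact ⟨EuclideanSpace.single 0 1, by simp, by simp [h]⟩
    · have h1 : ‖z‖ ≠ 0 := norm_ne_zero_iff.2 h
      refine ⟨‖z‖⁻¹ • z, ?_, ?_⟩
      · rw [norm_smul, norm_inv, norm_norm, inv_mul_cancel₀ h1]
      · rw [smul_smul, mul_inv_cancel₀ h1, one_smul]
  let e₀ := Complex.orthonormalBasisOneI.repr
  let e := (rotation ⟨e₀.symm u, by simpa [Submonoid.unitSphere] using hu⟩).trans e₀
  have he : e 1 = u := by
    change e₀ (e₀.symm u * 1) = u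
    rw [mul_one, e₀.apply_symm_apply]
  have hin : ∀ w : ℂ, @inner ℝ _ _ z (e w) = ‖z‖ * w.re := by
    intro w
    conv_lhs => rw [hz, ← he, real_inner_smul_left, e.inner_map_map]
    simp
  rw [← e.measurePreserving.integral_comp e.toHomeomorph.measurableEmbedding,
    ← Complex.integral_comp_polarCoord_symm]
  change ∫ p in Set.Ioi (0 : ℝ) ×ˢ Set.Ioo (-π) π, _ ∂(volume.prod volume) = _
  have hcongr : ∀ p ∈ Set.Ioi (0 : ℝ) ×ˢ Set.Ioo (-π) π,
      p.1 • (((n ‖e (Complex.polarCoord.symm p)‖ : ℝ) : ℂ) *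
        ex (@inner ℝ _ _ z (e (Complex.polarCoord.symm p)))) =
      ((n p.1 * p.1 : ℝ) : ℂ) *
        Complex.exp (((2 * π * p.1 * ‖z‖ * Real.cos p.2 : ℝ) : ℂ) * Complex.I) := by
    intro p hp
    have h1 : (Complex.polarCoord.symm p).re = p.1 * Real.cos p.2 := by
      simp [Complex.cos_ofReal_re, Complex.sin_ofReal_im, Complex.cos_ofReal_im]
    rw [e.norm_map, Complex.norm_polarCoord_symm, abs_of_pos hp.1, hin, h1, Complex.real_smul, ex,
      show 2 * π * (‖z‖ * (p.1 * Real.cos p.2)) = 2 * π * p.1 * ‖z‖ * Real.cos p.2 by ring,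
      Complex.ofReal_mul (n p.1) p.1]
    ring
  rw [setIntegral_congr_fun (measurableSet_Ioi.prod measurableSet_Ioo) hcongr, setIntegral_prod]
  · refine setIntegral_congr_fun measurableSet_Ioi fun s _ => ?_
    simp only
    rw [integral_const_mul, intervalIntegral.integral_of_le (by linarith [Real.pi_pos]),
      integral_Ioc_eq_integral_Ioo]
  · rw [IntegrableOn, ← Measure.prod_restrict]
    have h1 : Integrable (fun p : ℝ × ℝ => (n p.1 * p.1) * (1 : ℝ))
        ((volume.restrict (Ioi 0)).prod (volume.restrict (Ioo (-π) π))) :=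
      Integrable.mul_prod (rad_int hc h0 hi) (integrable_const (1 : ℝ))
    refine h1.norm.mono' (Continuous.aestronglyMeasurable (by fun_prop)) (.of_forall fun p => ?_)
    rw [norm_mul, Complex.norm_exp_ofReal_mul_I, Complex.norm_real, mul_one, mul_one]

theorem rad_triv (l : ℝ) :
    ‖∫ θ in (-π)..π, Complex.exp (((l * Real.cos θ : ℝ) : ℂ) * Complex.I)‖ ≤ 2 * π := by
  refine (intervalIntegral.norm_integral_le_of_norm_le_const (C := 1) fun θ _ =>
    (Complex.norm_exp_ofReal_mul_I _).le).trans (le_of_eq ?_)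
  rw [one_mul, sub_neg_eq_add, abs_of_pos (by have := Real.pi_pos; linarith)]
  ring

theorem rad_root {s : ℝ} (hs : 0 < s) : s * (2 * π * s) ^ (-(1 / 2) : ℝ) ≤ 1 + s := by
  have hp : 0 < 2 * π * s := by have := Real.pi_pos; positivity
  have h1 : ((2 * π * s) ^ (-(1 / 2) : ℝ)) ^ 2 * (2 * π * s) = 1 := by
    rw [← Real.rpow_natCast, ← Real.rpow_mul hp.le]
    norm_num [Real.rpow_neg_one]
    field_simp
  have h0 : 0 < (2 * π * s) ^ (-(1 / 2) : ℝ) := Real.rpow_pos_of_pos hp _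
  generalize (2 * π * s) ^ (-(1 / 2) : ℝ) = t at h1 h0
  have h2 : t ^ 2 * s ≤ 1 := by
    have h3 : 0 ≤ t ^ 2 * s := by positivity
    nlinarith [Real.pi_gt_three]
  nlinarith [sq_nonneg (s * t - 1), mul_le_mul_of_nonneg_left h2 hs.le]

theorem rad_pt {C : ℝ} (hC : 0 < C) (h : ∀ l : ℝ, 0 < l →
    ‖∫ θ in (-π)..π, Complex.exp (((l * Real.cos θ : ℝ) : ℂ) * Complex.I)‖ ≤
      C * l ^ (-(1 / 2) : ℝ)) {s : ℝ} (hs : 0 < s) (z : E2) :
    s * ‖∫ θ in (-π)..π, Complex.exp (((2 * π * s * ‖z‖ * Real.cos θ : ℝ) : ℂ) * Complex.I)‖ ≤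
      (2 * π + C) * kk z * (1 + s) := by
  have hπ := Real.pi_pos
  rcases le_total ‖z‖ 1 with hz | hz
  · have h1 := mul_le_mul_of_nonneg_left (rad_triv (2 * π * s * ‖z‖)) hs.le
    rw [kk, max_eq_right hz, Real.one_rpow, mul_one]
    nlinarith [mul_pos hC hs]
  · have hz0 : 0 < ‖z‖ := one_pos.trans_le hz
    have h1 := mul_le_mul_of_nonneg_left (h (2 * π * s * ‖z‖) (by positivity)) hs.le
    rw [Real.mul_rpow (by positivity) hz0.le] at h1
    rw [kk, max_eq_left hz]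
    have h2 : 0 < ‖z‖ ^ (-(1 / 2) : ℝ) := Real.rpow_pos_of_pos hz0 _
    have h3 := mul_le_mul_of_nonneg_left (rad_root hs) (mul_pos hC h2).le
    have h4 : 0 ≤ 2 * π * ‖z‖ ^ (-(1 / 2) : ℝ) * (1 + s) := by positivity
    refine h1.trans ?_
    nlinarith

/-- The kernel bound. -/
theorem LL_le {e : ℝ} (h0 : 0 < e) (h1 : e ≤ 3 / 4) : ∃ C : ℝ, 0 < C ∧ ∀ R : ℝ, 1 ≤ R →
    (Integrable fun ξ : E2 => nu e R ‖ξ‖ ^ 2) ∧
      ∀ z, ‖LL (nu e R) z‖ ≤ C * R ^ (-1 - 2 * e) * kk z := by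
  obtain ⟨C₁, hC₁, hv⟩ := vdc
  obtain ⟨C₂, hC₂, hn⟩ := nu_int h0 h1
  have hπ := Real.pi_pos
  refine ⟨(2 * π + C₁) * C₂, by positivity, fun R hR => ?_⟩
  obtain ⟨hi, hle⟩ := hn R hR
  have hc : Continuous fun s => nu e R s ^ 2 := (continuous_nu e (by linarith)).pow 2
  refine ⟨integrable_radial hc (fun s => sq_nonneg _) hi, fun z => ?_⟩
  have hk := kk_pos z
  rw [LL, radial_eq hc (fun s => sq_nonneg _) hi z]
  refine (norm_integral_le_of_norm_le (hi.const_mul ((2 * π + C₁) * kk z)) ?_).trans ?_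
  · refine (ae_restrict_iff' measurableSet_Ioi).2 (Eventually.of_forall fun s hs => ?_)
    have hs : 0 < s := hs
    rw [norm_mul, Complex.norm_real, Real.norm_of_nonneg (by positivity), mul_assoc]
    refine (mul_le_mul_of_nonneg_left (rad_pt hC₁ hv hs z) (sq_nonneg _)).trans (le_of_eq ?_)
    ring
  · rw [integral_const_mul]
    refine (mul_le_mul_of_nonneg_left hle (by positivity)).trans (le_of_eq ?_)
    ring

end Pool.Agent.Lib.MP_8ec070_an.LH
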