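import Pool.Agent.Lib.MP_8ec070_an.LH.Defs

set_option autoImplicit false

open MeasureTheory Set Filter Topology Metric
open scoped ENNReal NNReal Real FourierTransform SchwartzMap

namespace Pool.Agent.Lib.MP_8ec070_an.LH

theorem mass_le {α : ℝ} (φ : E2 → ℝ) (x y : E2) {ρ : ℝ} (hρ : 0 < ρ) :
    mass φ y ρ ≤ ENNReal.ofReal ((‖x - y‖ + ρ) ^ (1 + α) * ρ ^ (1 - α)) * GG α φ x := by
  have hD : 0 < (‖x - y‖ + ρ) ^ (1 + α) * ρ ^ (1 - α) := by positivity
  calc mass φ y ρ = ENNReal.ofReal ((‖x - y‖ + ρ) ^ (1 + α) * ρ ^ (1 - α)) *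
        (ENNReal.ofReal (((‖x - y‖ + ρ) ^ (1 + α) * ρ ^ (1 - α))⁻¹) * mass φ y ρ) := by
        rw [← mul_assoc, ← ENNReal.ofReal_mul hD.le, mul_inv_cancel₀ hD.ne', ENNReal.ofReal_one,
          one_mul]
    _ ≤ _ := by
        gcongr
        exact le_iSup_of_le y (le_iSup₂_of_le ρ hρ le_rfl)

theorem measurable_GG (α : ℝ) {φ : E2 → ℝ} (hφ : LocallyIntegrable φ volume) :
    Measurable (GG α φ) := by
  refine LowerSemicontinuous.measurable (lowerSemicontinuous_iSup fun y =>
    lowerSemicontinuous_iSup fun ρ => lowerSemicontinuous_iSup fun hρ =>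
      Continuous.lowerSemicontinuous ?_)
  have hm : mass φ y ρ ≠ ⊤ :=
    ((hφ.integrableOn_isCompact (isCompact_closedBall y ρ)).mono_set
      ball_subset_closedBall).lintegral_lt_top.ne
  refine (ENNReal.continuous_mul_const hm).comp (ENNReal.continuous_ofReal.comp ?_)
  refine Continuous.inv₀ (Continuous.mul (Continuous.rpow_const (by fun_prop) fun _ =>
    Or.inl (by positivity)) continuous_const) fun _ => by positivity

theorem schur_shell (w : E2) : ∃ i : ℕ, ‖w‖ < 2 ^ i ∧ kk w ≤ 2 * ((2 : ℝ) ^ (-(1 / 2) : ℝ)) ^ i := by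
  rcases lt_or_ge ‖w‖ 1 with h | h
  · exact ⟨0, by simpa using h, by linarith [kk_le_one w, pow_zero ((2 : ℝ) ^ (-(1 / 2) : ℝ))]⟩
  · obtain ⟨n, h1, h2⟩ := exists_nat_pow_near h (one_lt_two (α := ℝ))
    refine ⟨n + 1, h2, ?_⟩
    have h3 : (2 : ℝ) ^ (-1 : ℝ) ≤ 2 ^ (-(1 / 2) : ℝ) :=
      Real.rpow_le_rpow_of_exponent_le one_le_two (by norm_num)
    rw [Real.rpow_neg_one] at h3
    have h4 : kk w ≤ ((2 : ℝ) ^ (-(1 / 2) : ℝ)) ^ n := by
      rw [kk, max_eq_left h, Real.rpow_pow_comm zero_le_two]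
      exact Real.rpow_le_rpow_of_nonpos (by positivity) h1 (by norm_num)
    have h5 : 0 < ((2 : ℝ) ^ (-(1 / 2) : ℝ)) ^ n := by positivity
    rw [pow_succ]
    nlinarith

/-- The Schur sum. -/
theorem schur {α : ℝ} (h0 : 1 / 2 < α) (h1 : α ≤ 1) : ∃ C : ℝ≥0, ∀ R : ℝ, 1 ≤ R →
    ∀ φ : E2 → ℝ, (∀ x, 0 ≤ φ x) → LocallyIntegrable φ volume → ∀ z x y : E2, x ∈ ball z R →
      y ∈ ball z (3 * R) → ∫⁻ x' in ball z R, ENNReal.ofReal (kk (x - x') * φ x') ≤
        C * ENNReal.ofReal (R ^ (1 + α)) * GG α φ y := by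
  set a : ℝ := (2 : ℝ) ^ (-(1 / 2) : ℝ) with ha
  set b : ℝ := (2 : ℝ) ^ (1 - α) with hb
  have ha0 : 0 < a := by positivity
  have hb0 : 0 < b := by positivity
  have hq : a * b < 1 := by
    rw [ha, hb, ← Real.rpow_add two_pos]
    exact Real.rpow_lt_one_of_one_lt_of_neg one_lt_two (by linarith)
  have hq0 : 0 ≤ a * b := by positivity
  have hq1 : 0 < 1 - a * b := by linarith
  refine ⟨Real.toNNReal (2 * 6 ^ (1 + α) * (1 - a * b)⁻¹), fun R hR φ hφ _ z x y hx hy => ?_⟩
  let T : ℕ → Set E2 := fun i =>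
    ball z R ∩ ({v | ‖x - v‖ < 2 ^ i} ∩ {v | kk (x - v) ≤ 2 * a ^ i})
  have hT : ∀ i, MeasurableSet (T i) := fun i => measurableSet_ball.inter
    ((isOpen_lt (by fun_prop) continuous_const).measurableSet.inter
      (isClosed_le (continuous_kk.comp (by fun_prop)) continuous_const).measurableSet)
  have hxy : ‖y - x‖ ≤ 4 * R := by
    have := dist_triangle_right y x z
    rw [mem_ball] at hx hy
    rw [← dist_eq_norm]
    linarith
  have key : ∀ i, ∫⁻ v in T i, ENNReal.ofReal (kk (x - v) * φ v) ≤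
      ENNReal.ofReal (2 * 6 ^ (1 + α) * R ^ (1 + α) * (a * b) ^ i) * GG α φ y := fun i => by
    have hρ : (0 : ℝ) < min (2 ^ i) (2 * R) := by positivity
    calc ∫⁻ v in T i, ENNReal.ofReal (kk (x - v) * φ v)
        ≤ ∫⁻ v in T i, ENNReal.ofReal (2 * a ^ i) * ENNReal.ofReal (φ v) :=
          setLIntegral_mono' (hT i) fun v hv => by
            rw [← ENNReal.ofReal_mul (by positivity)]
            exact ENNReal.ofReal_le_ofReal (mul_le_mul_of_nonneg_right hv.2.2 (hφ v))
      _ ≤ ENNReal.ofReal (2 * a ^ i) * mass φ x (min (2 ^ i) (2 * R)) := by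
          rw [lintegral_const_mul' _ _ ENNReal.ofReal_ne_top]
          gcongr
          refine lintegral_mono_set fun v hv => ?_
          have h2 := dist_triangle_right v x z
          have h3 := mem_ball.1 hv.1
          have h4 := mem_ball.1 hx
          rw [mem_ball, lt_min_iff]
          exact ⟨by rw [dist_comm, dist_eq_norm]; exact hv.2.1, by linarith⟩
      _ ≤ ENNReal.ofReal (2 * a ^ i) * (ENNReal.ofReal ((6 * R) ^ (1 + α) * b ^ i) * GG α φ y) := by
          gcongr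
          refine (mass_le (α := α) φ y x hρ).trans ?_
          have h2 : min ((2 : ℝ) ^ i) (2 * R) ≤ 2 * R := min_le_right _ _
          have h3 : (min ((2 : ℝ) ^ i) (2 * R)) ^ (1 - α) ≤ b ^ i := by
            rw [hb, Real.rpow_pow_comm zero_le_two]
            exact Real.rpow_le_rpow hρ.le (min_le_left _ _) (by linarith)
          have h4 : (‖y - x‖ + min ((2 : ℝ) ^ i) (2 * R)) ^ (1 + α) ≤ (6 * R) ^ (1 + α) :=
            Real.rpow_le_rpow (by positivity) (by linarith) (by linarith)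
          gcongr
      _ = _ := by
          rw [← mul_assoc, ← ENNReal.ofReal_mul (by positivity),
            Real.mul_rpow (by norm_num) (by linarith), mul_pow]
          congr 2
          ring
  calc ∫⁻ v in ball z R, ENNReal.ofReal (kk (x - v) * φ v)
      ≤ ∫⁻ v in ⋃ i, T i, ENNReal.ofReal (kk (x - v) * φ v) :=
        lintegral_mono_set fun v hv => mem_iUnion.2 ((schur_shell (x - v)).imp fun i h => ⟨hv, h⟩)
    _ ≤ ∑' i, ENNReal.ofReal (2 * 6 ^ (1 + α) * R ^ (1 + α) * (a * b) ^ i) * GG α φ y :=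
        (lintegral_iUnion_le _ _).trans (ENNReal.tsum_le_tsum key)
    _ = _ := by
        rw [ENNReal.tsum_mul_right, ← ENNReal.ofReal_tsum_of_nonneg (fun i => by positivity)
          ((summable_geometric_of_lt_one hq0 hq).mul_left _), tsum_mul_left,
          tsum_geometric_of_lt_one hq0 hq]
        change _ = ENNReal.ofReal (2 * 6 ^ (1 + α) * (1 - a * b)⁻¹) * _ * _
        rw [← ENNReal.ofReal_mul (by positivity)]
        congr 2
        ring

end Pool.Agent.Lib.MP_8ec070_an.LH
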