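import Pool.Agent.Lib.MP_8ec070_an.LH.Basic
import Pool.Agent.Lib.MP_8ec070_an.LH.Rad
import Pool.Agent.Lib.MP_8ec070_an.LH.Dual
import Pool.Agent.Lib.MP_8ec070_an.LH.Schur
import Pool.Agent.Lib.MP_8ec070_an.LH.Avg

set_option autoImplicit false

open MeasureTheory Set Filter Topology Metric
open scoped ENNReal NNReal Real FourierTransform SchwartzMap

namespace Pool.Agent.Lib.MP_8ec070_an.LH

theorem piece_LL (B : ℝ) (ν : ℝ → ℝ) (z : E2) :
    ‖LL (fun s => B * ν s) z‖ = B ^ 2 * ‖LL ν z‖ := by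
  have : LL (fun s => B * ν s) z = ((B ^ 2 : ℝ) : ℂ) * LL ν z := by
    unfold LL
    rw [← integral_const_mul]
    congr 1
    ext ξ
    push_cast
    ring
  rw [this, norm_mul, Complex.norm_real, Real.norm_of_nonneg (sq_nonneg B)]

/-- One piece on one ball. -/
theorem piece_ball {e α B : ℝ} (he0 : 0 < e) (he1 : e ≤ 3 / 4) (h0 : 1 / 2 < α) (h1 : α ≤ 1)
    (hB : 0 < B) : ∃ C : ℝ≥0, ∀ R : ℝ, 1 ≤ R → ∀ μ : E2 → ℂ, Continuous μ →
      (∀ ξ, ‖μ ξ‖ ≤ B * nu e R ‖ξ‖) → Loc μ R → ∀ (f : 𝓢(E2, ℂ)) (φ : E2 → ℝ), (∀ x, 0 ≤ φ x) →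
      LocallyIntegrable φ volume → ∀ z : E2,
      ∫⁻ x in ball z R, ENNReal.ofReal (‖TT μ f x‖ ^ 2 * φ x) ≤ ∫⁻ x in ball z (3 * R),
        C * ENNReal.ofReal (R ^ (α - 2 * e)) * (ENNReal.ofReal (‖f x‖ ^ 2) * GG α φ x) := by
  obtain ⟨C₁, hC₁, H₁⟩ := LL_le he0 he1
  obtain ⟨C₂, H₂⟩ := schur h0 h1
  refine ⟨(B ^ 2 * C₁).toNNReal * C₂, fun R hR μ hμ hle hloc f φ hφ0 hφ z => ?_⟩
  have hR0 : 0 < R := by linarith
  obtain ⟨hi, hL⟩ := H₁ R hR
  obtain ⟨g, g1, g2, g3⟩ := exists_cut f z hR0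
  have hb : ∀ ξ, ‖μ ξ‖ ≤ B * R ^ (-e) := fun ξ =>
    (hle ξ).trans (mul_le_mul_of_nonneg_left (nu_le (by linarith) hR0.le _) hB.le)
  have eq : ∀ x ∈ ball z R, TT μ f x = TT μ g x := fun x hx => by
    have := hloc (f - g) x fun y hy => by
      have : y ∈ ball z (2 * R) := by
        rw [mem_ball] at *
        linarith [dist_triangle y x z]
      simp [g1 y this]
    rwa [TT_sub_fun hμ hb, sub_eq_zero] at this
  have iφ : IntegrableOn φ (ball z R) :=
    (hφ.integrableOn_isCompact (isCompact_closedBall z R)).mono_set ball_subset_closedBall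
  set w : E2 → ℝ := (ball z R).indicator φ with hw
  have w0 : ∀ x, 0 ≤ w x := fun x => indicator_nonneg (fun y _ => hφ0 y) x
  have wi : Integrable w := (integrable_indicator_iff measurableSet_ball).2 iφ
  set W₀ : ℝ≥0∞ := ⨆ x ∈ ball z R, ∫⁻ x' in ball z R, ENNReal.ofReal (kk (x - x') * φ x') with hW₀
  have fin : W₀ ≠ ⊤ := by
    refine ne_top_of_le_ne_top iφ.lintegral_lt_top.ne (iSup₂_le fun x _ => lintegral_mono fun y => ?_)
    exact ENNReal.ofReal_le_ofReal (mul_le_of_le_one_left (hφ0 y) (kk_le_one _))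
  set D : ℝ := B ^ 2 * C₁ * R ^ (-1 - 2 * e) with hD
  have D0 : 0 ≤ D := by positivity
  have hW : ∀ x, w x ≠ 0 → ∫ x', ‖LL (fun s => B * nu e R s) (x - x')‖ * w x' ≤ D * W₀.toReal := by
    intro x hx
    have hxb : x ∈ ball z R := by
      by_contra h
      exact hx (indicator_of_notMem h _)
    have kc : Continuous fun x' => kk (x - x') := continuous_kk.comp (by fun_prop)
    have ki : IntegrableOn (fun x' => kk (x - x') * φ x') (ball z R) :=
      Integrable.bdd_mul (c := 1) iφ kc.aestronglyMeasurable (.of_forall fun y => by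
        rw [Real.norm_of_nonneg (kk_pos _).le]; exact kk_le_one _)
    have e1 : ∫ x', D * (ball z R).indicator (fun x' => kk (x - x') * φ x') x' =
        D * (∫⁻ x' in ball z R, ENNReal.ofReal (kk (x - x') * φ x')).toReal := by
      rw [integral_const_mul, integral_indicator measurableSet_ball,
        integral_eq_lintegral_of_nonneg_ae
          (.of_forall fun y => mul_nonneg (kk_pos _).le (hφ0 y)) ki.aestronglyMeasurable]
    refine le_trans (integral_mono_of_nonneg (.of_forall fun y => mul_nonneg (norm_nonneg _) (w0 y))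
      (((integrable_indicator_iff measurableSet_ball).2 ki).const_mul D) (.of_forall fun y => ?_))
      (e1.le.trans (mul_le_mul_of_nonneg_left (ENNReal.toReal_mono fin
        (le_iSup₂_of_le x hxb le_rfl)) D0))
    by_cases hy : y ∈ ball z R
    · simp only [hw, indicator_of_mem hy, piece_LL]
      have := mul_le_mul_of_nonneg_right (mul_le_mul_of_nonneg_left (hL (x - y)) (sq_nonneg B))
        (hφ0 y)
      refine this.trans (le_of_eq ?_)
      rw [hD]
      ring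
    · simp [hw, indicator_of_notMem hy]
  have hi' : Integrable fun ξ : E2 => (B * nu e R ‖ξ‖) ^ 2 := by
    simpa only [mul_pow] using hi.const_mul (B ^ 2)
  have key := tt_star (ν := fun s => B * nu e R s) (continuous_const.mul (continuous_nu e hR0.le))
    (fun s => mul_nonneg hB.le (nu_nonneg e hR0.le s)) hi' hμ hle (memLp_FT g) w0 wi
    (mul_nonneg D0 ENNReal.toReal_nonneg) hW
  rw [plancherel] at key
  change ∫ x, ‖TT μ g x‖ ^ 2 * w x ≤ _ at key
  have tc := continuous_TT hμ hb g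
  have ti : Integrable fun x => ‖TT μ g x‖ ^ 2 * w x :=
    Integrable.bdd_mul (c := (B * R ^ (-e) * ∫ ξ, ‖FT g ξ‖) ^ 2) wi
      (tc.norm.pow 2).aestronglyMeasurable (.of_forall fun y => by
        rw [Real.norm_of_nonneg (sq_nonneg _)]
        exact pow_le_pow_left₀ (norm_nonneg _) (norm_TT_le hb g y) 2)
  have gi : Integrable fun x => ‖g x‖ ^ 2 := (g.memLp 2 volume).norm.integrable_sq
  have l1 : ∫⁻ x in ball z R, ENNReal.ofReal (‖TT μ f x‖ ^ 2 * φ x) =
      ENNReal.ofReal (∫ x, ‖TT μ g x‖ ^ 2 * w x) := by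
    rw [ofReal_integral_eq_lintegral_ofReal ti
      (.of_forall fun y => mul_nonneg (sq_nonneg _) (w0 y)), ← lintegral_indicator measurableSet_ball]
    refine lintegral_congr fun y => ?_
    by_cases hy : y ∈ ball z R
    · simp only [hw, indicator_of_mem hy, eq y hy]
    · simp [hw, indicator_of_notMem hy]
  rw [l1]
  refine (ENNReal.ofReal_le_ofReal key).trans ?_
  rw [ENNReal.ofReal_mul (mul_nonneg D0 ENNReal.toReal_nonneg), ENNReal.ofReal_mul D0,
    ENNReal.ofReal_toReal fin, ofReal_integral_eq_lintegral_ofReal gi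
      (.of_forall fun y => sq_nonneg _),
    ← lintegral_const_mul' _ _ (ENNReal.mul_ne_top ENNReal.ofReal_ne_top fin),
    ← lintegral_indicator measurableSet_ball]
  refine lintegral_mono fun y => ?_
  by_cases hy : y ∈ ball z (3 * R)
  · rw [indicator_of_mem hy]
    have a1 : W₀ ≤ C₂ * ENNReal.ofReal (R ^ (1 + α)) * GG α φ y :=
      iSup₂_le fun x hx => H₂ R hR φ hφ0 hφ z x y hx hy
    have a2 : ENNReal.ofReal (‖g y‖ ^ 2) ≤ ENNReal.ofReal (‖f y‖ ^ 2) :=
      ENNReal.ofReal_le_ofReal (pow_le_pow_left₀ (norm_nonneg _) (g2 y) 2)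
    refine (mul_le_mul' (mul_le_mul_right a1 _) a2).trans (le_of_eq ?_)
    have a3 : ENNReal.ofReal D * ENNReal.ofReal (R ^ (1 + α)) =
        ENNReal.ofReal (B ^ 2 * C₁) * ENNReal.ofReal (R ^ (α - 2 * e)) := by
      rw [← ENNReal.ofReal_mul D0, ← ENNReal.ofReal_mul (by positivity), hD, mul_assoc,
        ← Real.rpow_add hR0]
      congr 3
      ring
    rw [ENNReal.coe_mul]
    calc ENNReal.ofReal D * (C₂ * ENNReal.ofReal (R ^ (1 + α)) * GG α φ y) *
          ENNReal.ofReal (‖f y‖ ^ 2)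
        = (ENNReal.ofReal D * ENNReal.ofReal (R ^ (1 + α))) * C₂ *
          (ENNReal.ofReal (‖f y‖ ^ 2) * GG α φ y) := by ring
      _ = _ := by
        rw [a3]
        change _ = ENNReal.ofReal (B ^ 2 * C₁) * _ * _ * _
        ring
  · simp [g3 y hy]

/-- One piece. -/
theorem piece {e α B : ℝ} (he0 : 0 < e) (he1 : e ≤ 3 / 4) (h0 : 1 / 2 < α) (h1 : α ≤ 1)
    (hB : 0 < B) : ∃ C : ℝ≥0, ∀ R : ℝ, 1 ≤ R → ∀ μ : E2 → ℂ, Continuous μ →
      (∀ ξ, ‖μ ξ‖ ≤ B * nu e R ‖ξ‖) → Loc μ R → ∀ (f : 𝓢(E2, ℂ)) (φ : E2 → ℝ), (∀ x, 0 ≤ φ x) →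
      LocallyIntegrable φ volume →
      ∫⁻ x, ENNReal.ofReal (‖TT μ f x‖ ^ 2 * φ x) ≤ ENNReal.ofReal (R ^ (α - 2 * e)) *
        (C * ∫⁻ x, ENNReal.ofReal (‖f x‖ ^ 2) * GG α φ x) := by
  obtain ⟨C, H⟩ := piece_ball he0 he1 h0 h1 hB
  refine ⟨9 * C, fun R hR μ hμ hle hloc f φ hφ0 hφ => ?_⟩
  have hR0 : 0 < R := by linarith
  have hb : ∀ ξ, ‖μ ξ‖ ≤ B * R ^ (-e) := fun ξ =>
    (hle ξ).trans (mul_le_mul_of_nonneg_left (nu_le (by linarith) hR0.le _) hB.le)
  have m1 : Measurable fun x => ENNReal.ofReal (‖f x‖ ^ 2) * GG α φ x :=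
    (f.continuous.norm.pow 2).measurable.ennreal_ofReal.mul (measurable_GG α hφ)
  have := avg ((((continuous_TT hμ hb f).norm.pow 2).measurable.aemeasurable.mul
    hφ.aestronglyMeasurable.aemeasurable).ennreal_ofReal) (m1.const_mul _) hR0
    (H R hR μ hμ hle hloc f φ hφ0 hφ)
  refine this.trans (le_of_eq ?_)
  rw [lintegral_const_mul _ m1]
  push_cast
  ring

end Pool.Agent.Lib.MP_8ec070_an.LH
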