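import Pool.Agent.Lib.MP_8ec070_an.LH.Defs

set_option autoImplicit false

open MeasureTheory Set Filter Topology Metric
open scoped ENNReal NNReal Real FourierTransform SchwartzMap

namespace Pool.Agent.Lib.MP_8ec070_an.LH

/-- The integrand. -/
noncomputable def vdc_E (l θ : ℝ) : ℂ := Complex.exp (((l * Real.cos θ : ℝ) : ℂ) * Complex.I)

theorem vdc_norm (l θ : ℝ) : ‖vdc_E l θ‖ = 1 := Complex.norm_exp_ofReal_mul_I _

@[fun_prop] theorem vdc_cont (l : ℝ) : Continuous (vdc_E l) := by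
  unfold vdc_E
  fun_prop

theorem vdc_int (l a b : ℝ) : IntervalIntegrable (vdc_E l) volume a b :=
  (vdc_cont l).intervalIntegrable a b

theorem vdc_triv (l : ℝ) {a b : ℝ} (h : a ≤ b) : ‖∫ θ in a..b, vdc_E l θ‖ ≤ b - a := by
  have := intervalIntegral.norm_integral_le_of_norm_le_const (a := a) (b := b) (C := 1)
    (f := vdc_E l) fun θ _ => (vdc_norm l θ).le
  rwa [one_mul, abs_of_nonneg (sub_nonneg.2 h)] at this

theorem vdc_deriv (l θ : ℝ) :
    HasDerivAt (vdc_E l) (vdc_E l θ * (((l * -Real.sin θ : ℝ) : ℂ) * Complex.I)) θ :=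
  ((((Real.hasDerivAt_cos θ).const_mul l).ofReal_comp).mul_const Complex.I).cexp

theorem vdc_parts {l a : ℝ} (hl : l ≠ 0) (ha : 0 < a) (ha1 : a ≤ π / 2) :
    ‖∫ θ in a..(π / 2), vdc_E l θ‖ ≤ 2 / (|l| * Real.sin a) := by
  have hpi := Real.pi_pos
  have hs : ∀ θ ∈ uIcc a (π / 2), 0 < Real.sin θ := fun θ hθ => by
    rw [uIcc_of_le ha1] at hθ
    exact Real.sin_pos_of_pos_of_lt_pi (ha.trans_le hθ.1) (by linarith [hθ.2])
  have hc : ∀ θ ∈ uIcc a (π / 2), 0 ≤ Real.cos θ := fun θ hθ => by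
    rw [uIcc_of_le ha1] at hθ
    exact Real.cos_nonneg_of_mem_Icc ⟨by linarith [hθ.1], hθ.2⟩
  have hsa : 0 < Real.sin a := hs a left_mem_uIcc
  have hl' : 0 < |l| := abs_pos.2 hl
  have hlc : (l : ℂ) ≠ 0 := Complex.ofReal_ne_zero.2 hl
  have hu : ∀ θ ∈ uIcc a (π / 2),
      HasDerivAt (fun θ => (Real.sin θ)⁻¹) (-Real.cos θ / Real.sin θ ^ 2) θ :=
    fun θ hθ => (Real.hasDerivAt_sin θ).inv (hs θ hθ).ne'
  have hu' : ContinuousOn (fun θ => -Real.cos θ / Real.sin θ ^ 2) (uIcc a (π / 2)) :=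
    ContinuousOn.div (by fun_prop) (by fun_prop) fun θ hθ => pow_ne_zero 2 (hs θ hθ).ne'
  have hv : ∀ θ, HasDerivAt (fun θ => vdc_E l θ * (Complex.I / l))
      (vdc_E l θ * (Real.sin θ : ℝ)) θ := fun θ => by
    refine ((vdc_deriv l θ).mul_const (Complex.I / l)).congr_deriv ?_
    push_cast
    field_simp
    simp
  have hnv : ∀ θ, ‖vdc_E l θ * (Complex.I / l)‖ = |l|⁻¹ := fun θ => by
    rw [norm_mul, vdc_norm, norm_div, Complex.norm_I, Complex.norm_real, Real.norm_eq_abs,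
      one_mul, one_div]
  have key := intervalIntegral.integral_mul_deriv_eq_deriv_mul (a := a) (b := π / 2)
    (u := fun θ => (((Real.sin θ)⁻¹ : ℝ) : ℂ))
    (u' := fun θ => ((-Real.cos θ / Real.sin θ ^ 2 : ℝ) : ℂ))
    (v := fun θ => vdc_E l θ * (Complex.I / l)) (v' := fun θ => vdc_E l θ * (Real.sin θ : ℝ))
    (fun θ hθ => (hu θ hθ).ofReal_comp) (fun θ _ => hv θ)
    (Complex.continuous_ofReal.comp_continuousOn hu').intervalIntegrable
    (Continuous.intervalIntegrable (by fun_prop) _ _)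
  have e1 : ∫ θ in a..(π / 2), vdc_E l θ =
      ∫ θ in a..(π / 2), (((Real.sin θ)⁻¹ : ℝ) : ℂ) * (vdc_E l θ * (Real.sin θ : ℝ)) := by
    refine intervalIntegral.integral_congr fun θ hθ => ?_
    have : ((Real.sin θ : ℝ) : ℂ) ≠ 0 := Complex.ofReal_ne_zero.2 (hs θ hθ).ne'
    rw [Complex.ofReal_inv]
    field_simp
  have e2 : ∫ θ in a..(π / 2), -(-Real.cos θ / Real.sin θ ^ 2) * |l|⁻¹ =
      ((Real.sin a)⁻¹ - 1) * |l|⁻¹ := by
    rw [intervalIntegral.integral_mul_const, intervalIntegral.integral_neg,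
      intervalIntegral.integral_eq_sub_of_hasDerivAt hu hu'.intervalIntegrable,
      Real.sin_pi_div_two]
    ring
  have e3 : ‖∫ θ in a..(π / 2), ((-Real.cos θ / Real.sin θ ^ 2 : ℝ) : ℂ) *
      (vdc_E l θ * (Complex.I / l))‖ ≤ ((Real.sin a)⁻¹ - 1) * |l|⁻¹ := by
    rw [← e2]
    refine intervalIntegral.norm_integral_le_of_norm_le ha1 (Eventually.of_forall fun θ hθ => ?_)
      (hu'.neg.intervalIntegrable.mul_const _)
    have hθ' : θ ∈ uIcc a (π / 2) := by
      rw [uIcc_of_le ha1]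
      exact Ioc_subset_Icc_self hθ
    rw [norm_mul, hnv, Complex.norm_real, Real.norm_eq_abs, abs_of_nonpos]
    exact div_nonpos_of_nonpos_of_nonneg (neg_nonpos.2 (hc θ hθ')) (sq_nonneg _)
  rw [e1, key]
  refine (norm_sub_le _ _).trans ((add_le_add (norm_sub_le _ _) e3).trans (le_of_eq ?_))
  rw [norm_mul, norm_mul (((Real.sin a)⁻¹ : ℝ) : ℂ), hnv, hnv, Complex.norm_real, Complex.norm_real,
    Real.sin_pi_div_two, Real.norm_eq_abs, Real.norm_eq_abs, abs_of_pos (inv_pos.2 hsa)]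
  simp only [inv_one, abs_one]
  field_simp
  ring

theorem vdc_quarter {l a : ℝ} (ha : 0 < a) (ha1 : a ≤ 1) (h : |l| * a ^ 2 = 1) :
    ‖∫ θ in (0 : ℝ)..(π / 2), vdc_E l θ‖ ≤ 5 * a := by
  have hpi := Real.pi_gt_three
  have hpi' := Real.pi_lt_four
  have hl : l ≠ 0 := by
    rintro rfl
    simp at h
  have hl' : 0 < |l| := abs_pos.2 hl
  have ha2 : a ≤ π / 2 := by linarith
  have h1 := vdc_triv l ha.le
  have h2 := vdc_parts hl ha ha2
  have h3 : 2 / π * a ≤ Real.sin a := Real.mul_le_sin ha.le ha2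
  have h4 : a / 2 ≤ Real.sin a := by
    refine le_trans ?_ h3
    rw [div_mul_eq_mul_div, div_le_div_iff₀ (by norm_num) (by linarith)]
    nlinarith
  have h5 : 2 / (|l| * Real.sin a) ≤ 4 * a := by
    rw [div_le_iff₀ (mul_pos hl' (by linarith))]
    nlinarith [mul_le_mul_of_nonneg_left h4 (mul_pos hl' ha).le]
  rw [← intervalIntegral.integral_add_adjacent_intervals (vdc_int l 0 a) (vdc_int l a (π / 2))]
  refine (norm_add_le _ _).trans ?_
  linarith

theorem vdc_half {l a : ℝ} (ha : 0 < a) (ha1 : a ≤ 1) (h : |l| * a ^ 2 = 1) :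
    ‖∫ θ in (0 : ℝ)..π, vdc_E l θ‖ ≤ 10 * a := by
  have e : ∫ θ in (π / 2)..π, vdc_E l θ = ∫ θ in (0 : ℝ)..(π / 2), vdc_E (-l) θ := by
    have h1 := intervalIntegral.integral_comp_sub_left (a := 0) (b := π / 2) (vdc_E l) π
    rw [sub_zero, show π - π / 2 = π / 2 by ring] at h1
    rw [← h1]
    refine intervalIntegral.integral_congr fun θ _ => ?_
    simp only [vdc_E, Real.cos_pi_sub, mul_neg, neg_mul]
  rw [← intervalIntegral.integral_add_adjacent_intervals (vdc_int l 0 (π / 2))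
    (vdc_int l (π / 2) π), e]
  refine (norm_add_le _ _).trans ?_
  linarith [vdc_quarter ha ha1 h, vdc_quarter (l := -l) ha ha1 (by rwa [abs_neg])]

/-- Decay of the Fourier transform of the circle. -/
theorem vdc : ∃ C : ℝ, 0 < C ∧ ∀ l : ℝ, 0 < l →
    ‖∫ θ in (-π)..π, Complex.exp (((l * Real.cos θ : ℝ) : ℂ) * Complex.I)‖ ≤ C * l ^ (-(1 / 2) : ℝ) := by
  refine ⟨20, by norm_num, fun l hl => ?_⟩
  change ‖∫ θ in (-π)..π, vdc_E l θ‖ ≤ _
  have hpi := Real.pi_pos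
  have hpi' := Real.pi_lt_four
  rcases le_total l 1 with h | h
  · have h1 : 1 ≤ l ^ (-(1 / 2) : ℝ) :=
      Real.one_le_rpow_of_pos_of_le_one_of_nonpos hl h (by norm_num)
    have h2 := vdc_triv l (a := -π) (b := π) (by linarith)
    linarith
  · have ha : 0 < l ^ (-(1 / 2) : ℝ) := Real.rpow_pos_of_pos hl _
    have ha1 : l ^ (-(1 / 2) : ℝ) ≤ 1 := Real.rpow_le_one_of_one_le_of_nonpos h (by norm_num)
    have h2 : |l| * (l ^ (-(1 / 2) : ℝ)) ^ 2 = 1 := by
      rw [abs_of_pos hl, ← Real.rpow_natCast, ← Real.rpow_mul hl.le]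
      norm_num
      rw [Real.rpow_neg_one, mul_inv_cancel₀ hl.ne']
    have e : ∫ θ in (-π)..0, vdc_E l θ = ∫ θ in (0 : ℝ)..π, vdc_E l θ := by
      have h1 := intervalIntegral.integral_comp_neg (a := 0) (b := π) (vdc_E l)
      rw [neg_zero] at h1
      rw [← h1]
      refine intervalIntegral.integral_congr fun θ _ => ?_
      simp only [vdc_E, Real.cos_neg]
    rw [← intervalIntegral.integral_add_adjacent_intervals (vdc_int l (-π) 0) (vdc_int l 0 π), e]
    refine (norm_add_le _ _).trans ?_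
    linarith [vdc_half ha ha1 h2]

end Pool.Agent.Lib.MP_8ec070_an.LH
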